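import Mathlib

/-! Second moment and Chebyshev's inequality, both sides. -/

set_option autoImplicit false

namespace Pool.Agent.U918.SM
open Finset

open Classical in
lemma cheb2 (S Gs : Finset ℕ) (P : ℕ → ℕ → Prop) (V η δ r m G : ℝ) (F : ℕ → ℕ → ℝ) (hV0 : 0 < V) (hV : V ≤ 1) (hδ : 0 < δ)
    (hm : (S.card : ℝ) = m) (hG : (Gs.card : ℝ) = G) (hr : 0 ≤ r)
    (h1 : ∀ s ∈ S, G * V - r ≤ ((Gs.filter (fun g => P s g)).card : ℝ))
    (h2 : ∀ s ∈ S, ∀ t ∈ S.erase s, ((Gs.filter (fun g => P s g ∧ P t g)).card : ℝ) ≤ G * (V ^ 2 * F s t) + r)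
    (h3 : ∀ s ∈ S, ∑ t ∈ S.erase s, F s t ≤ (1 + η) * m) :
    ((Gs.filter (fun g => δ * (m * V) < |((S.filter (fun s => P s g)).card : ℝ) - m * V|)).card : ℝ) * (δ * (m * V)) ^ 2 ≤
      η * (G * (m * V) ^ 2) + m * G + 3 * (m ^ 2 * r) := by
  set i : ℕ → ℕ → ℝ := fun s g => if P s g then 1 else 0 with hi
  set X : ℕ → ℝ := fun g => ∑ s ∈ S, i s g with hX
  have hm0 : 0 ≤ m := by rw [← hm]; exact Nat.cast_nonneg _
  have hG0 : 0 ≤ G := by rw [← hG]; exact Nat.cast_nonneg _
  have hXc : ∀ g, X g = ((S.filter (fun s => P s g)).card : ℝ) := by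
    intro g
    rw [hX, hi]
    simp only
    rw [← sum_filter, sum_const, nsmul_eq_mul, mul_one]
  have hc1 : ∀ s, ∑ g ∈ Gs, i s g = ((Gs.filter (fun g => P s g)).card : ℝ) := by
    intro s
    rw [hi]
    simp only
    rw [← sum_filter, sum_const, nsmul_eq_mul, mul_one]
  have hc2 : ∀ s t, ∑ g ∈ Gs, i s g * i t g = ((Gs.filter (fun g => P s g ∧ P t g)).card : ℝ) := by
    intro s t
    have : ∀ g, i s g * i t g = if P s g ∧ P t g then (1 : ℝ) else 0 := by
      intro g
      rw [hi]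
      by_cases ha : P s g <;> by_cases hb : P t g <;> simp [ha, hb]
    simp_rw [this]
    rw [← sum_filter, sum_const, nsmul_eq_mul, mul_one]
  have hS1 : m * (G * V - r) ≤ ∑ g ∈ Gs, X g := by
    rw [hX, sum_comm]
    have : ∑ _s ∈ S, (G * V - r) ≤ ∑ s ∈ S, ∑ g ∈ Gs, i s g := by
      apply sum_le_sum
      intro s hs
      rw [hc1]
      exact h1 s hs
    rwa [sum_const, nsmul_eq_mul, hm] at this
  have hS2 : ∑ g ∈ Gs, X g ^ 2 ≤ m * (G + (G * V ^ 2 * ((1 + η) * m) + m * r)) := by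
    have e1 : ∑ g ∈ Gs, X g ^ 2 = ∑ s ∈ S, ∑ t ∈ S, ∑ g ∈ Gs, i s g * i t g := by
      have : ∀ g, X g ^ 2 = ∑ s ∈ S, ∑ t ∈ S, i s g * i t g := by
        intro g
        rw [hX, sq, sum_mul_sum]
      simp_rw [this]
      rw [sum_comm]
      apply sum_congr rfl
      intro s _
      rw [sum_comm]
    rw [e1]
    have : ∀ s ∈ S, ∑ t ∈ S, ∑ g ∈ Gs, i s g * i t g ≤ G + (G * V ^ 2 * ((1 + η) * m) + m * r) := by
      intro s hs
      rw [← add_sum_erase S _ hs]
      apply add_le_add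
      · rw [hc2, ← hG]
        exact_mod_cast card_filter_le _ _
      · calc ∑ t ∈ S.erase s, ∑ g ∈ Gs, i s g * i t g ≤ ∑ t ∈ S.erase s, (G * (V ^ 2 * F s t) + r) := by
              apply sum_le_sum
              intro t ht
              rw [hc2]
              exact h2 s hs t ht
          _ = G * V ^ 2 * ∑ t ∈ S.erase s, F s t + ((S.erase s).card : ℝ) * r := by
              rw [sum_add_distrib, sum_const, nsmul_eq_mul, mul_sum]
              congr 1
              apply sum_congr rfl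
              intro t _
              ring
          _ ≤ G * V ^ 2 * ((1 + η) * m) + m * r := by
              have : ((S.erase s).card : ℝ) ≤ m := by
                rw [← hm]
                exact_mod_cast card_le_card (erase_subset _ _)
              have := h3 s hs
              gcongr
    calc ∑ s ∈ S, ∑ t ∈ S, ∑ g ∈ Gs, i s g * i t g ≤ ∑ _s ∈ S, (G + (G * V ^ 2 * ((1 + η) * m) + m * r)) := sum_le_sum this
      _ = _ := by rw [sum_const, nsmul_eq_mul, hm]
  have hvar : ∑ g ∈ Gs, (X g - m * V) ^ 2 ≤ η * (G * (m * V) ^ 2) + m * G + 3 * (m ^ 2 * r) := by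
    have e : ∑ g ∈ Gs, (X g - m * V) ^ 2 = ∑ g ∈ Gs, X g ^ 2 - 2 * (m * V) * ∑ g ∈ Gs, X g + G * (m * V) ^ 2 := by
      rw [← hG, mul_sum, ← nsmul_eq_mul, ← sum_const, ← sum_sub_distrib, ← sum_add_distrib]
      apply sum_congr rfl
      intro g _
      ring
    rw [e]
    have h5 : 2 * (m * V) * (m * (G * V - r)) ≤ 2 * (m * V) * ∑ g ∈ Gs, X g := by
      apply mul_le_mul_of_nonneg_left hS1
      positivity
    have h6 : m * V * (m * r) ≤ m * (m * r) := by
      have : m * V ≤ m := by nlinarith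
      apply mul_le_mul_of_nonneg_right this
      positivity
    nlinarith
  refine le_trans ?_ hvar
  set Bd := Gs.filter (fun g => δ * (m * V) < |((S.filter (fun s => P s g)).card : ℝ) - m * V|) with hBd
  calc (Bd.card : ℝ) * (δ * (m * V)) ^ 2 = ∑ _g ∈ Bd, (δ * (m * V)) ^ 2 := by rw [sum_const, nsmul_eq_mul]
    _ ≤ ∑ g ∈ Bd, (X g - m * V) ^ 2 := by
        apply sum_le_sum
        intro g hg
        rw [hBd, mem_filter] at hg
        rw [hXc, ← sq_abs (((S.filter (fun s => P s g)).card : ℝ) - m * V)]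
        have h8 : 0 ≤ δ * (m * V) := by positivity
        exact pow_le_pow_left₀ h8 hg.2.le 2
    _ ≤ ∑ g ∈ Gs, (X g - m * V) ^ 2 := sum_le_sum_of_subset_of_nonneg (filter_subset _ _) (fun _ _ _ => sq_nonneg _)

end Pool.Agent.U918.SM
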