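import Mathlib
import Pool.Agent.Y877.SxG
import Pool.Agent.U918.SM.Rough

/-! Assembly for one window, both sides, arbitrary residue classes. -/

set_option autoImplicit false

namespace Pool.Agent.U918.SM
open Finset Pool.Agent.H373R2.T7 Pool.Agent.Y877.SX Polynomial

lemma bil_step2 (e x N z : ℕ) (R w : ℝ)
    (hbil : ∀ Gf c : ℕ → ℂ, (∀ a, ‖Gf a‖ ≤ 1) → (∀ m, ‖c m‖ ≤ 1) →
      ‖∑ a ∈ Icc 1 N, ∑ m ∈ Icc 1 x, Gf a * c m *
      ((lamI (a + 1 * (X ^ e : ℤ[X]).eval (m : ℤ)) - lamzI z (a + 1 * (X ^ e : ℤ[X]).eval (m : ℤ)) : ℝ) : ℂ)‖ ≤ R)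
    (S H : Finset ℕ) (hS : S ⊆ Icc 1 x) (hH : H ⊆ Icc 1 N)
    (hw : ∀ h ∈ H, w ≤ |∑ s ∈ S, (ArithmeticFunction.vonMangoldt (s ^ e + h) - lamz z (s ^ e + h))|) :
    H.card * w ≤ R := by
  classical
  obtain ⟨D, hD⟩ : ∃ D : ℕ → ℝ, ∀ h, D h = ∑ s ∈ S, (ArithmeticFunction.vonMangoldt (s ^ e + h) - lamz z (s ^ e + h)) :=
    ⟨_, fun _ => rfl⟩
  obtain ⟨σ, hσ⟩ : ∃ σ : ℕ → ℝ, ∀ h, σ h = if 0 ≤ D h then 1 else -1 := ⟨_, fun _ => rfl⟩
  have hσ1 : ∀ h, |σ h| = 1 := by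
    intro h
    rw [hσ]
    split_ifs <;> simp
  have hσD : ∀ h, σ h * D h = |D h| := by
    intro h
    rw [hσ]
    split_ifs with h0
    · rw [one_mul, abs_of_nonneg h0]
    · push Not at h0
      rw [abs_of_neg h0]
      ring
  have h1 := hbil (fun a => if a ∈ H then (σ a : ℂ) else 0) (fun m => if m ∈ S then 1 else 0) (by
    intro a
    split_ifs
    · rw [Complex.norm_real, Real.norm_eq_abs, hσ1]
    · simp) (by
    intro a
    split_ifs <;> simp)
  have e1 : ∑ a ∈ Icc 1 N, ∑ m ∈ Icc 1 x, (if a ∈ H then (σ a : ℂ) else 0) * (if m ∈ S then (1 : ℂ) else 0) *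
      ((lamI (a + 1 * (X ^ e : ℤ[X]).eval (m : ℤ)) - lamzI z (a + 1 * (X ^ e : ℤ[X]).eval (m : ℤ)) : ℝ) : ℂ) =
      ((∑ h ∈ H, |D h| : ℝ) : ℂ) := by
    have f1 : (Icc 1 N).filter (fun a => a ∈ H) = H := by
      ext a
      rw [mem_filter]
      exact ⟨fun h => h.2, fun h => ⟨hH h, h⟩⟩
    have f2 : (Icc 1 x).filter (fun a => a ∈ S) = S := by
      ext a
      rw [mem_filter]
      exact ⟨fun h => h.2, fun h => ⟨hS h, h⟩⟩
    rw [Complex.ofReal_sum]
    conv_rhs => rw [← f1, sum_filter]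
    apply sum_congr rfl
    intro a ha
    rw [mem_Icc] at ha
    by_cases haH : a ∈ H
    · rw [if_pos haH, if_pos haH, ← hσD, Complex.ofReal_mul, hD, Complex.ofReal_sum, mul_sum]
      conv_rhs => rw [← f2, sum_filter]
      apply sum_congr rfl
      intro m _
      by_cases hmS : m ∈ S
      · rw [if_pos hmS, if_pos hmS, mul_one]
        congr 2
        rw [eval_pow, eval_X, one_mul]
        have e2 : (a : ℤ) + (m : ℤ) ^ e = ((m ^ e + a : ℕ) : ℤ) := by push_cast; ring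
        rw [e2]
        unfold lamI lamzI
        rw [if_pos (by exact_mod_cast (by omega : 1 ≤ m ^ e + a)), if_pos (by exact_mod_cast (by omega : 1 ≤ m ^ e + a)), Int.toNat_natCast]
      · rw [if_neg hmS, if_neg hmS, mul_zero, zero_mul]
    · rw [if_neg haH, if_neg haH]
      apply sum_eq_zero
      intro m _
      rw [zero_mul, zero_mul]
  rw [e1, Complex.norm_real, Real.norm_eq_abs] at h1
  have h2 : ∑ _h ∈ H, w ≤ ∑ h ∈ H, |D h| := sum_le_sum (fun h hh => by rw [hD]; exact hw h hh)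
  rw [sum_const, nsmul_eq_mul] at h2
  exact h2.trans ((le_abs_self _).trans h1)

lemma lamz_eq2 (e y z M a s w : ℕ) (hs : ∀ p : ℕ, p.Prime → p ≤ y → ¬ p ∣ s ^ e + a) (hM : ∀ p : ℕ, p.Prime → p ≤ y → p ∣ M) :
    lamz z (s ^ e + (a + M * w)) = if ∀ p ∈ mid y z, ¬ p ∣ s ^ e + (a + M * w) then (Vz z)⁻¹ else 0 := by
  unfold lamz
  have : (∀ p ∈ pz z, ¬ p ∣ s ^ e + (a + M * w)) ↔ (∀ p ∈ mid y z, ¬ p ∣ s ^ e + (a + M * w)) := by
    constructor
    · intro h p hp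
      exact h p (mem_pz.2 (mem_mid.1 hp).2)
    · intro h p hp hd
      rw [mem_pz] at hp
      by_cases hy : y < p
      · exact h p (mem_mid.2 ⟨hy, hp⟩) hd
      · have h1 : p ∣ M * w := (hM p hp.2 (by omega)).mul_right _
        rw [← add_assoc] at hd
        exact hs p hp.2 (by omega) ((Nat.dvd_add_left h1).1 hd)
  by_cases h : ∀ p ∈ mid y z, ¬ p ∣ s ^ e + (a + M * w)
  · rw [if_pos h, if_pos (this.2 h)]
  · rw [if_neg h, if_neg (fun h2 => h (this.1 h2))]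

open Classical in
lemma assemble2 (S : Finset ℕ) (e x y z N M G g0 a : ℕ) (δ m R : ℝ) (hδ : 0 < δ) (hδ1 : δ ≤ 1) (hm : (S.card : ℝ) = m) (hm0 : 0 < m)
    (hN : N = x ^ e)
    (hN1 : 1 ≤ N) (hM1 : 1 ≤ M) (hyz : y ≤ z) (hS : S ⊆ Icc 1 x) (hSp : ∀ s ∈ S, ∀ p : ℕ, p.Prime → p ≤ y → ¬ p ∣ s ^ e + a)
    (hMp : ∀ p : ℕ, p.Prime → p ≤ y → p ∣ M) (hg1 : a + M * (g0 + G) ≤ N)
    (hrough : (((Icc 1 G).filter (fun g => δ * (m * Vm y z) <
      |((S.filter (fun s => ∀ p ∈ mid y z, ¬ p ∣ s ^ e + (a + M * g0 + M * g))).card : ℝ) - m * Vm y z|)).card : ℝ) ≤ δ * G)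
    (hbil : ∀ Gf c : ℕ → ℂ, (∀ a, ‖Gf a‖ ≤ 1) → (∀ m, ‖c m‖ ≤ 1) →
      ‖∑ a ∈ Icc 1 N, ∑ m ∈ Icc 1 x, Gf a * c m *
      ((lamI (a + 1 * (X ^ e : ℤ[X]).eval (m : ℤ)) - lamzI z (a + 1 * (X ^ e : ℤ[X]).eval (m : ℤ)) : ℝ) : ℂ)‖ ≤ R)
    (hR : R ≤ (δ * G) * (δ * m)) (hPP : x * (2 * √((2 * N : ℕ) : ℝ) * Real.log ((2 * N : ℕ) : ℝ)) ≤ (δ * G) * (δ * m)) :
    (((Icc 1 G).filter (fun g => ¬ ((1 - 3 * δ) * (m * (Vz y)⁻¹) ≤
        ((S.filter (fun s => (s ^ e + (a + M * (g0 + g))).Prime)).card : ℝ) * Real.log (2 * (x : ℝ) ^ e) ∧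
      ((S.filter (fun s => (s ^ e + (a + M * (g0 + g))).Prime)).card : ℝ) * Real.log (δ * (M * G)) ≤
        (1 + 3 * δ) * (m * (Vz y)⁻¹)))).card : ℝ) ≤ 4 * δ * G := by
  have hδm : 0 < δ * m := by positivity
  have hVy := Vz_pos y
  have hVz := Vz_pos z
  have hVm := Vm_pos y z
  have hVy1 : 1 ≤ (Vz y)⁻¹ := by
    rw [one_le_inv₀ hVy]
    exact Vz_le_one y
  have hG0 : (0 : ℝ) ≤ G := Nat.cast_nonneg G
  have hsplit := Vz_split y z hyz
  -- the four bad sets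
  obtain ⟨cX, hcX⟩ : ∃ cX : ℕ → ℝ, ∀ g, cX g = ((S.filter (fun s => ∀ p ∈ mid y z, ¬ p ∣ s ^ e + (a + M * g0 + M * g))).card : ℝ) :=
    ⟨_, fun _ => rfl⟩
  obtain ⟨T, hT⟩ : ∃ T : ℕ → ℝ, ∀ g, T g = ∑ s ∈ S, ArithmeticFunction.vonMangoldt (s ^ e + (a + M * (g0 + g))) := ⟨_, fun _ => rfl⟩
  obtain ⟨PP, hPPd⟩ : ∃ PP : ℕ → ℝ, ∀ g, PP g = ∑ s ∈ S, (if (s ^ e + (a + M * (g0 + g))).Prime then (0 : ℝ) else
    ArithmeticFunction.vonMangoldt (s ^ e + (a + M * (g0 + g)))) := ⟨_, fun _ => rfl⟩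
  set B1 := (Icc 1 G).filter (fun g => δ * (m * Vm y z) < |cX g - m * Vm y z|) with hB1
  set B2 := (Icc 1 G).filter (fun g => |cX g - m * Vm y z| ≤ δ * (m * Vm y z) ∧
    2 * δ * (m * (Vz y)⁻¹) < |T g - m * (Vz y)⁻¹|) with hB2
  set B3 := (Icc 1 G).filter (fun g => δ * m < PP g) with hB3
  set B4 := (Icc 1 G).filter (fun g : ℕ => (g : ℝ) ≤ δ * G) with hB4
  have hinj : Function.Injective (fun g => a + M * (g0 + g)) := by
    intro u v huv
    simp only at huv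
    have := Nat.eq_of_mul_eq_mul_left hM1 (Nat.add_left_cancel huv)
    omega
  have hrange : ∀ g ∈ Icc 1 G, a + M * (g0 + g) ∈ Icc 1 N := by
    intro g hg
    rw [mem_Icc] at hg ⊢
    have h1 : 0 < M * (g0 + g) := Nat.mul_pos hM1 (by omega)
    have h2 : M * (g0 + g) ≤ M * (g0 + G) := Nat.mul_le_mul_left _ (by omega)
    omega
  have c1 : (B1.card : ℝ) ≤ δ * G := by
    have : B1 = (Icc 1 G).filter (fun g => δ * (m * Vm y z) <
      |((S.filter (fun s => ∀ p ∈ mid y z, ¬ p ∣ s ^ e + (a + M * g0 + M * g))).card : ℝ) - m * Vm y z|) := by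
      rw [hB1]
      ext g
      rw [mem_filter, mem_filter, hcX]
    rw [this]
    exact hrough
  have c2 : (B2.card : ℝ) ≤ δ * G := by
    have h1 := bil_step2 e x N z R (δ * m) hbil S (B2.image (fun g => a + M * (g0 + g))) hS (by
      intro h hh
      rw [mem_image] at hh
      obtain ⟨g, hg, rfl⟩ := hh
      exact hrange g (mem_filter.1 hg).1) (by
      intro h hh
      rw [mem_image] at hh
      obtain ⟨g, hg, rfl⟩ := hh
      rw [hB2, mem_filter] at hg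
      obtain ⟨_, h2, h3⟩ := hg
      rw [sum_sub_distrib, ← hT]
      have h4 : ∑ s ∈ S, lamz z (s ^ e + (a + M * (g0 + g))) = (Vz z)⁻¹ * cX g := by
        have : ∀ s ∈ S, lamz z (s ^ e + (a + M * (g0 + g))) = if ∀ p ∈ mid y z, ¬ p ∣ s ^ e + (a + M * g0 + M * g) then (Vz z)⁻¹ else 0 := by
          intro s hs
          rw [lamz_eq2 e y z M a s (g0 + g) (hSp s hs) hMp, mul_add, ← add_assoc a]
        rw [sum_congr rfl this, ← sum_filter, sum_const, nsmul_eq_mul, hcX, mul_comm]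
      rw [h4]
      have h5 : (Vz z)⁻¹ * (m * Vm y z) = m * (Vz y)⁻¹ := by
        rw [hsplit, mul_inv]
        field_simp
      have h6 : |(Vz z)⁻¹ * cX g - m * (Vz y)⁻¹| ≤ δ * (m * (Vz y)⁻¹) := by
        rw [← h5, ← mul_sub, abs_mul, abs_of_pos (inv_pos.2 hVz)]
        calc (Vz z)⁻¹ * |cX g - m * Vm y z| ≤ (Vz z)⁻¹ * (δ * (m * Vm y z)) :=
              mul_le_mul_of_nonneg_left h2 (inv_pos.2 hVz).le
          _ = δ * ((Vz z)⁻¹ * (m * Vm y z)) := by ring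
      have h7 : δ * m * 1 ≤ δ * m * (Vz y)⁻¹ := mul_le_mul_of_nonneg_left hVy1 hδm.le
      have h8 : |T g - m * (Vz y)⁻¹| ≤ |T g - (Vz z)⁻¹ * cX g| + |(Vz z)⁻¹ * cX g - m * (Vz y)⁻¹| := abs_sub_le _ _ _
      linarith)
    rw [card_image_of_injective _ hinj] at h1
    exact le_of_mul_le_mul_right (h1.trans hR) hδm
  have c3 : (B3.card : ℝ) ≤ δ * G := by
    have h1 := pp_sum x e (2 * N) (by omega) S (B3.image (fun g => a + M * (g0 + g))) hS (by
      intro s hs h hh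
      rw [mem_image] at hh
      obtain ⟨g, hg, rfl⟩ := hh
      have h2 := (mem_Icc.1 (hrange g (mem_filter.1 hg).1)).2
      have h3 : s ^ e ≤ N := by
        rw [hN]
        exact Nat.pow_le_pow_left (mem_Icc.1 (hS hs)).2 e
      omega)
    rw [sum_image (fun u _ v _ huv => hinj huv)] at h1
    have h2 : ∑ _g ∈ B3, (δ * m) ≤ ∑ g ∈ B3, PP g := by
      apply sum_le_sum
      intro g hg
      exact (mem_filter.1 hg).2.le
    rw [sum_const, nsmul_eq_mul] at h2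
    have h3 : ∑ g ∈ B3, PP g ≤ (δ * G) * (δ * m) := by
      refine le_trans (le_of_eq ?_) (h1.trans hPP)
      apply sum_congr rfl
      intro g _
      rw [hPPd]
    exact le_of_mul_le_mul_right (h2.trans h3) hδm
  have c4 : (B4.card : ℝ) ≤ δ * G := by
    have h1 : B4 ⊆ Icc 1 ⌊δ * G⌋₊ := by
      intro g hg
      rw [hB4, mem_filter, mem_Icc] at hg
      rw [mem_Icc]
      exact ⟨hg.1.1, Nat.le_floor hg.2⟩
    have h2 := card_le_card h1
    rw [Nat.card_Icc, Nat.add_sub_cancel] at h2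
    calc (B4.card : ℝ) ≤ (⌊δ * G⌋₊ : ℝ) := by exact_mod_cast h2
      _ ≤ δ * G := Nat.floor_le (by positivity)
  have hsub : (Icc 1 G).filter (fun g => ¬ ((1 - 3 * δ) * (m * (Vz y)⁻¹) ≤
        ((S.filter (fun s => (s ^ e + (a + M * (g0 + g))).Prime)).card : ℝ) * Real.log (2 * (x : ℝ) ^ e) ∧
      ((S.filter (fun s => (s ^ e + (a + M * (g0 + g))).Prime)).card : ℝ) * Real.log (δ * (M * G)) ≤
        (1 + 3 * δ) * (m * (Vz y)⁻¹))) ⊆ B1 ∪ (B2 ∪ (B3 ∪ B4)) := by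
    intro g hg
    rw [mem_filter] at hg
    obtain ⟨hg, hlt⟩ := hg
    by_contra hcon
    apply hlt
    rw [mem_union, mem_union, mem_union] at hcon
    push Not at hcon
    obtain ⟨n1, n2, n3, n4⟩ := hcon
    have q1 : |cX g - m * Vm y z| ≤ δ * (m * Vm y z) := by
      by_contra h
      push Not at h
      exact n1 (mem_filter.2 ⟨hg, h⟩)
    have q2 : |T g - m * (Vz y)⁻¹| ≤ 2 * δ * (m * (Vz y)⁻¹) := by
      by_contra h
      push Not at h
      exact n2 (mem_filter.2 ⟨hg, q1, h⟩)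
    have q3 : PP g ≤ δ * m := by
      by_contra h
      push Not at h
      exact n3 (mem_filter.2 ⟨hg, h⟩)
    have q6 : δ * G < g := by
      by_contra h
      push Not at h
      exact n4 (mem_filter.2 ⟨hg, h⟩)
    rw [abs_le] at q2
    have q5 : δ * m * 1 ≤ δ * m * (Vz y)⁻¹ := mul_le_mul_of_nonneg_left hVy1 hδm.le
    have hmV : 0 < m * (Vz y)⁻¹ := by positivity
    have hval : ∀ s ∈ S, s ^ e + (a + M * (g0 + g)) ≤ 2 * x ^ e := by
      intro s hs
      have h2 := (mem_Icc.1 (hrange g hg)).2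
      have h3 : s ^ e ≤ N := by
        rw [hN]
        exact Nat.pow_le_pow_left (mem_Icc.1 (hS hs)).2 e
      omega
    constructor
    · have q4 : T g ≤ ((S.filter (fun s => (s ^ e + (a + M * (g0 + g))).Prime)).card : ℝ) * Real.log (2 * (x : ℝ) ^ e) + PP g := by
        rw [hT, hPPd, card_eq_sum_ones, Nat.cast_sum, sum_mul, sum_filter, ← sum_add_distrib]
        apply sum_le_sum
        intro s hs
        by_cases hp : (s ^ e + (a + M * (g0 + g))).Prime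
        · rw [if_pos hp, if_pos hp, ArithmeticFunction.vonMangoldt_apply_prime hp, Nat.cast_one, one_mul, add_zero]
          apply Real.log_le_log (by exact_mod_cast hp.pos)
          exact_mod_cast hval s hs
        · rw [if_neg hp, if_neg hp, zero_add]
      linarith
    · have q4 : ((S.filter (fun s => (s ^ e + (a + M * (g0 + g))).Prime)).card : ℝ) * Real.log (δ * (M * G)) ≤ T g := by
        rw [hT, card_eq_sum_ones, Nat.cast_sum, sum_mul, sum_filter]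
        apply sum_le_sum
        intro s hs
        by_cases hp : (s ^ e + (a + M * (g0 + g))).Prime
        · rw [if_pos hp, ArithmeticFunction.vonMangoldt_apply_prime hp, Nat.cast_one, one_mul]
          have hg1' : 0 < g := (mem_Icc.1 hg).1
          have hGpos : 0 < G := hg1'.trans_le (mem_Icc.1 hg).2
          apply Real.log_le_log (by positivity)
          have hMr : (1 : ℝ) ≤ M := by exact_mod_cast hM1
          have h1 : δ * (M * G) ≤ M * g := by
            calc δ * (M * G) = M * (δ * G) := by ring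
              _ ≤ M * g := mul_le_mul_of_nonneg_left q6.le (by linarith)
          have h2 : (M * g : ℝ) ≤ ((s ^ e + (a + M * (g0 + g)) : ℕ) : ℝ) := by
            have : M * g ≤ s ^ e + (a + M * (g0 + g)) := by
              rw [mul_add]
              omega
            exact_mod_cast this
          exact h1.trans h2
        · rw [if_neg hp]
          exact ArithmeticFunction.vonMangoldt_nonneg
      nlinarith
  have h1 := card_le_card hsub
  have h2 : (B1 ∪ (B2 ∪ (B3 ∪ B4))).card ≤ B1.card + (B2.card + (B3.card + B4.card)) :=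
    (card_union_le _ _).trans (Nat.add_le_add_left ((card_union_le _ _).trans (Nat.add_le_add_left (card_union_le _ _) _)) _)
  have h3 : (((Icc 1 G).filter (fun g => ¬ ((1 - 3 * δ) * (m * (Vz y)⁻¹) ≤
        ((S.filter (fun s => (s ^ e + (a + M * (g0 + g))).Prime)).card : ℝ) * Real.log (2 * (x : ℝ) ^ e) ∧
      ((S.filter (fun s => (s ^ e + (a + M * (g0 + g))).Prime)).card : ℝ) * Real.log (δ * (M * G)) ≤
        (1 + 3 * δ) * (m * (Vz y)⁻¹)))).card : ℝ) ≤ B1.card + (B2.card + (B3.card + B4.card)) := by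
    exact_mod_cast h1.trans h2
  linarith

end Pool.Agent.U918.SM
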