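import Mathlib
import Pool.Agent.U918.SM.Asm

/-! For almost all shifts in a residue class the shifted set has the expected number of primes. -/

set_option autoImplicit false

namespace Pool.Agent.U918.SM
open Finset Pool.Agent.H373R2.T7 Pool.Agent.Y877.SX Polynomial

open Classical in
theorem shifts2 (e : ℕ) (he : e = 1 ∨ e = 2) (A C : ℕ) (δ : ℝ) (hδ : 0 < δ) (hδ1 : δ ≤ 1) : ∃ K0 : ℕ, ∀ K1 : ℕ, ∃ x0 : ℕ, ∀ x : ℕ, x0 ≤ x →
    ∀ y : ℕ, K0 * Real.log (Real.log x) ≤ y → y ≤ K1 * Real.log (Real.log x) →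
    ∀ a : ℕ, ∀ S : Finset ℕ, S ⊆ Icc 1 x → (x : ℝ) ≤ S.card * Real.log x ^ A →
    (∀ s ∈ S, ∀ p : ℕ, p.Prime → p ≤ y → ¬ p ∣ s ^ e + a) →
    ∀ g0 G : ℕ, a + primorial y * (g0 + G) ≤ x ^ e → (x : ℝ) ^ e ≤ primorial y * G * Real.log x ^ C →
    (((Icc 1 G).filter (fun g => ¬ ((1 - 3 * δ) * (S.card * (Vz y)⁻¹) ≤
        ((S.filter (fun s => (s ^ e + (a + primorial y * (g0 + g))).Prime)).card : ℝ) * Real.log (2 * (x : ℝ) ^ e) ∧
      ((S.filter (fun s => (s ^ e + (a + primorial y * (g0 + g))).Prime)).card : ℝ) * Real.log (δ * (primorial y * G)) ≤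
        (1 + 3 * δ) * (S.card * (Vz y)⁻¹)))).card : ℝ) ≤ 4 * δ * G := by
  have he1 : 1 ≤ e := by omega
  have he2 : e ≤ 2 := by omega
  obtain ⟨K0, hK01, hrm⟩ := rough_many2 e he A δ δ hδ hδ
  refine ⟨K0, fun K1 => ?_⟩
  set U := A + C + 2 * K1 + 1 with hU
  have hdeg : (X ^ e : ℤ[X]).natDegree = e := natDegree_X_pow e
  have hlead : (X ^ e : ℤ[X]).leadingCoeff = 1 := leadingCoeff_X_pow e
  obtain ⟨B0, hB0⟩ := bil_lam (X ^ e : ℤ[X]) (by rw [hdeg]; exact he1) (by rw [hlead]; norm_num) 1 le_rfl U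
  obtain ⟨N1, hN1⟩ := hB0 (B0 + 3)
  obtain ⟨x1, hx1⟩ := hrm (2 * (B0 + 3))
  obtain ⟨x2, hx2⟩ := ev_L' (max (Real.exp 1) (max (max 4 K1) (1 / δ ^ 2)))
  obtain ⟨x3, hx3⟩ := ev_log' (C + 2 * K1) 1
  obtain ⟨x4, hx4⟩ := ev_log' (C + 2 * K1 + A + 1) (24 / δ ^ 2)
  refine ⟨max (max N1 x1) (max x2 (max x3 (max x4 1))), fun x hx y hy1 hy2 a S hS hSc hSp g0 G hg1 hg2 => ?_⟩
  have b1 : N1 ≤ x := le_trans (le_trans (le_max_left _ _) (le_max_left _ _)) hx
  have b2 : x1 ≤ x := le_trans (le_trans (le_max_right _ _) (le_max_left _ _)) hx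
  have b3 : x2 ≤ x := le_trans (le_trans (le_max_left _ _) (le_max_right _ _)) hx
  have b4 : x3 ≤ x := le_trans (le_trans (le_trans (le_max_left _ _) (le_max_right _ _)) (le_max_right _ _)) hx
  have b5 : x4 ≤ x := le_trans (le_trans (le_trans (le_trans (le_max_left _ _) (le_max_right _ _)) (le_max_right _ _)) (le_max_right _ _)) hx
  have b6 : 1 ≤ x := le_trans (le_trans (le_trans (le_trans (le_max_right _ _) (le_max_right _ _)) (le_max_right _ _)) (le_max_right _ _)) hx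
  have hL := hx2 x b3
  have hc3 := hx3 x b4
  have hc4 := hx4 x b5
  set L := Real.log x with hLd
  have hL1 : Real.exp 1 ≤ L := (le_max_left _ _).trans hL
  have hL2 : 4 ≤ L := (((le_max_left _ _).trans (le_max_left _ _)).trans (le_max_right _ _)).trans hL
  have hL3 : (K1 : ℝ) ≤ L := (((le_max_right _ _).trans (le_max_left _ _)).trans (le_max_right _ _)).trans hL
  have hL4 : 1 / δ ^ 2 ≤ L := ((le_max_right _ _).trans (le_max_right _ _)).trans hL
  have hL0 : 0 < L := by linarith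
  have hxr : (1 : ℝ) ≤ x := by exact_mod_cast b6
  have hx0 : (0 : ℝ) < x := by linarith
  rw [one_mul] at hc3
  -- N
  obtain ⟨N, hN⟩ : ∃ N, N = x ^ e := ⟨_, rfl⟩
  have hNx : x ≤ N := by rw [hN]; exact Nat.le_self_pow (by omega) x
  have hNr : (N : ℝ) = (x : ℝ) ^ e := by rw [hN]; push_cast; rfl
  have hN0 : (0 : ℝ) < N := by rw [hNr]; positivity
  have hlN : Real.log N = e * L := by rw [hNr, Real.log_pow]
  have her : (1 : ℝ) ≤ e := by exact_mod_cast he1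
  have her2 : (e : ℝ) ≤ 2 := by exact_mod_cast he2
  have hLN : L ≤ Real.log N := by rw [hlN]; exact le_mul_of_one_le_left hL0.le her
  have hLN2 : Real.log N ≤ 2 * L := by rw [hlN]; exact mul_le_mul_of_nonneg_right her2 hL0.le
  -- z
  obtain ⟨z, hzd⟩ : ∃ z, z = ⌈Real.log N ^ (B0 + 2)⌉₊ := ⟨_, rfl⟩
  have hz1 : Real.log N ^ (B0 + 2) ≤ z := by rw [hzd]; exact Nat.le_ceil _
  have hlN1 : 1 ≤ Real.log N := by linarith
  have hz1' : Real.log N ^ B0 ≤ z := (pow_le_pow_right₀ hlN1 (by omega)).trans hz1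
  have hz2 : (z : ℝ) ≤ Real.log N ^ (B0 + 3) := by
    have h1 : (z : ℝ) < Real.log N ^ (B0 + 2) + 1 := by rw [hzd]; exact Nat.ceil_lt_add_one (by positivity)
    have h2 : Real.log N ^ (B0 + 3) = Real.log N ^ (B0 + 2) * Real.log N := pow_succ _ _
    have h3 : 1 ≤ Real.log N ^ (B0 + 2) := one_le_pow₀ hlN1
    have h4 : Real.log N ^ (B0 + 2) * 2 ≤ Real.log N ^ (B0 + 2) * Real.log N := mul_le_mul_of_nonneg_left (by linarith) (by linarith)
    rw [h2]
    linarith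
  have hz3 : (z : ℝ) ≤ L ^ (2 * (B0 + 3)) := by
    refine hz2.trans ?_
    rw [pow_mul]
    apply pow_le_pow_left₀ (by linarith)
    calc Real.log N ≤ 2 * L := hLN2
      _ ≤ L * L := mul_le_mul_of_nonneg_right (by linarith) hL0.le
      _ = L ^ 2 := (sq L).symm
  have hzL : L ^ 2 ≤ z := by
    have h1 : L ^ 2 ≤ Real.log N ^ 2 := pow_le_pow_left₀ hL0.le hLN 2
    exact h1.trans ((pow_le_pow_right₀ hlN1 (by omega)).trans hz1)
  have hlL : 1 ≤ Real.log L := by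
    rw [← Real.log_exp 1]
    exact Real.log_le_log (Real.exp_pos 1) hL1
  obtain ⟨M, hMd⟩ : ∃ M, M = primorial y := ⟨_, rfl⟩
  have hML : (M : ℝ) ≤ L ^ (2 * K1) := by rw [hMd]; exact primorial_le_log K1 y L hL1 hy2
  have hM1 : 1 ≤ M := by rw [hMd]; exact primorial_pos y
  rw [← hMd] at hg1 hg2 ⊢
  rw [← hN] at hg1
  have hMp : ∀ p : ℕ, p.Prime → p ≤ y → p ∣ M := fun p hp hpy => by
    rw [hMd]
    exact hp.dvd_primorial_iff.2 hpy
  have hMq : ∀ p ∈ mid y z, ¬ p ∣ M := fun p hp hd => by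
    rw [hMd, (mem_mid.1 hp).2.2.dvd_primorial_iff] at hd
    have := (mem_mid.1 hp).1
    omega
  -- y ≤ z
  have hyz : y ≤ z := by
    have hy3 : (y : ℝ) ≤ z := by
      have h1 : Real.log L ≤ L := (Real.log_le_sub_one_of_pos hL0).trans (by linarith)
      calc (y : ℝ) ≤ K1 * Real.log L := hy2
        _ ≤ L * L := mul_le_mul hL3 h1 (by linarith) hL0.le
        _ = L ^ 2 := by ring
        _ ≤ z := hzL
    exact_mod_cast hy3
  -- G
  have hNG : (N : ℝ) ≤ L ^ (C + 2 * K1) * G := by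
    calc (N : ℝ) = (x : ℝ) ^ e := hNr
      _ ≤ M * G * L ^ C := hg2
      _ ≤ L ^ (2 * K1) * G * L ^ C := by gcongr
      _ = _ := by rw [pow_add]; ring
  have hG0 : (0 : ℝ) ≤ G := Nat.cast_nonneg G
  have hNxr : (x : ℝ) ≤ N := by exact_mod_cast hNx
  have hGx : √(x : ℝ) ≤ G := by
    have h2 : (x : ℝ) ≤ √x * G := (hNxr.trans hNG).trans (mul_le_mul_of_nonneg_right hc3 hG0)
    have h3 : √(x : ℝ) * √x = x := Real.mul_self_sqrt hx0.le
    have h4 : 0 < √(x : ℝ) := Real.sqrt_pos.2 hx0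
    have h5 : √(x : ℝ) * √x ≤ √x * G := by rw [h3]; exact h2
    exact le_of_mul_le_mul_left h5 h4
  obtain ⟨m, hmd⟩ : ∃ m : ℝ, m = (S.card : ℝ) := ⟨_, rfl⟩
  rw [← hmd] at hSc ⊢
  have hm0 : 0 < m := by
    by_contra h
    push Not at h
    have : m * L ^ A ≤ 0 := mul_nonpos_of_nonpos_of_nonneg h (by positivity)
    linarith
  have hr := hx1 x b2 y z hy1 hyz hz3 S hS (by rw [← hmd]; exact hSc) M hMq (a + M * g0) G hGx
  rw [← hmd] at hr
  have hb := fun Gf c => hN1 N (b1.trans hNx) x (by rw [hdeg, hN, one_mul]) (by rw [hdeg, hN, one_mul]) N (by rw [one_mul]) z hz1' hz2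
    1 (Or.inl rfl) Gf c
  have hδ2 : 1 ≤ δ ^ 2 * L := by
    rw [div_le_iff₀ (by positivity)] at hL4
    linarith
  refine assemble2 S e x y z N M G g0 a δ m (N * x / Real.log N ^ U) hδ hδ1 hmd.symm hm0 hN (b6.trans hNx) hM1 hyz hS hSp hMp hg1 hr hb ?_ ?_
  · have h1 : L ^ U ≤ Real.log N ^ U := pow_le_pow_left₀ hL0.le hLN U
    rw [div_le_iff₀ (by positivity)]
    calc (N : ℝ) * x ≤ (L ^ (C + 2 * K1) * G) * (m * L ^ A) := mul_le_mul hNG hSc hx0.le (by positivity)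
      _ = (G * m * L ^ (A + C + 2 * K1)) * 1 := by rw [add_assoc A, pow_add L A]; ring
      _ ≤ (G * m * L ^ (A + C + 2 * K1)) * (δ ^ 2 * L) := mul_le_mul_of_nonneg_left hδ2 (by positivity)
      _ = (δ * G) * (δ * m) * L ^ U := by rw [hU, pow_succ]; ring
      _ ≤ (δ * G) * (δ * m) * Real.log N ^ U := mul_le_mul_of_nonneg_left h1 (by positivity)
  · have h1 : Real.log ((2 * N : ℕ) : ℝ) ≤ 3 * L := by
      push_cast
      rw [Real.log_mul (by norm_num) hN0.ne']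
      have := Real.log_two_lt_d9
      linarith
    have h2 : √((2 * N : ℕ) : ℝ) ≤ 2 * √(N : ℝ) := by
      rw [show (2 : ℝ) * √(N : ℝ) = √((4 * N : ℝ)) by
        rw [Real.sqrt_mul (by norm_num), show (4 : ℝ) = 2 ^ 2 by norm_num, Real.sqrt_sq (by norm_num)]]
      apply Real.sqrt_le_sqrt
      push_cast
      linarith
    have h3 : √(x : ℝ) ≤ √(N : ℝ) := Real.sqrt_le_sqrt hNxr
    have h4 : √(N : ℝ) * √(N : ℝ) = N := Real.mul_self_sqrt hN0.le
    have h5 : 24 * L ^ (C + 2 * K1 + A + 1) ≤ δ ^ 2 * √(N : ℝ) := by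
      have := hc4.trans h3
      rw [div_mul_eq_mul_div, div_le_iff₀ (by positivity)] at this
      linarith
    have hsN : 0 < √(N : ℝ) := Real.sqrt_pos.2 hN0
    have hlog0 : 0 ≤ Real.log ((2 * N : ℕ) : ℝ) := Real.log_natCast_nonneg _
    have h6 : 2 * √((2 * N : ℕ) : ℝ) * Real.log ((2 * N : ℕ) : ℝ) ≤ 2 * (2 * √(N : ℝ)) * (3 * L) := by
      apply mul_le_mul _ h1 hlog0 (by positivity)
      linarith
    -- x * (12 √N L) ≤ δ² G m
    have h7 : √(N : ℝ) * (24 * L ^ (C + 2 * K1 + A + 1)) ≤ δ ^ 2 * (L ^ (C + 2 * K1) * G) := by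
      calc √(N : ℝ) * (24 * L ^ (C + 2 * K1 + A + 1)) ≤ √(N : ℝ) * (δ ^ 2 * √(N : ℝ)) := mul_le_mul_of_nonneg_left h5 hsN.le
        _ = δ ^ 2 * (√(N : ℝ) * √(N : ℝ)) := by ring
        _ = δ ^ 2 * N := by rw [h4]
        _ ≤ _ := mul_le_mul_of_nonneg_left hNG (by positivity)
    have h8 : √(N : ℝ) * (24 * L ^ (A + 1)) ≤ δ ^ 2 * G := by
      have h9 : 0 < L ^ (C + 2 * K1) := by positivity
      have h10 : L ^ (C + 2 * K1) * (√(N : ℝ) * (24 * L ^ (A + 1))) ≤ L ^ (C + 2 * K1) * (δ ^ 2 * G) := by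
        refine le_trans (le_of_eq ?_) (h7.trans (le_of_eq ?_))
        · rw [add_assoc (C + 2 * K1) A 1, pow_add]
          ring
        · ring
      exact le_of_mul_le_mul_left h10 h9
    calc (x : ℝ) * (2 * √((2 * N : ℕ) : ℝ) * Real.log ((2 * N : ℕ) : ℝ)) ≤ (m * L ^ A) * (2 * (2 * √(N : ℝ)) * (3 * L)) :=
          mul_le_mul hSc h6 (by positivity) (by positivity)
      _ = m * (√(N : ℝ) * (12 * L ^ (A + 1))) := by rw [pow_succ]; ring
      _ ≤ m * (√(N : ℝ) * (24 * L ^ (A + 1))) := by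
          apply mul_le_mul_of_nonneg_left _ hm0.le
          apply mul_le_mul_of_nonneg_left _ hsN.le
          have : 0 ≤ L ^ (A + 1) := by positivity
          linarith
      _ ≤ m * (δ ^ 2 * G) := mul_le_mul_of_nonneg_left h8 hm0.le
      _ = _ := by ring

end Pool.Agent.U918.SM
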