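import Mathlib
import Pool.Agent.Y877.SxH
import Pool.Agent.U918.SM.Shifts

/-! One condition: arbitrary index sets and arbitrary residue classes of shifts. -/

set_option autoImplicit false

namespace Pool.Agent.U918.SM
open Finset Pool.Agent.H373R2.T7 Pool.Agent.Y877.SX

/-- the `j ∈ J` for which `f j ^ e + a` is prime to all primes up to `y` -/
noncomputable def cop (e : ℕ) (f : ℕ → ℕ) (y a : ℕ) (J : Finset ℕ) : Finset ℕ :=
  open Classical in J.filter (fun j => ∀ p : ℕ, p.Prime → p ≤ y → ¬ p ∣ f j ^ e + a)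

/-- the `j ∈ J` for which `f j ^ e + h` is prime -/
noncomputable def pri (e : ℕ) (f : ℕ → ℕ) (h : ℕ) (J : Finset ℕ) : Finset ℕ :=
  open Classical in J.filter (fun j => (f j ^ e + h).Prime)

theorem pri_cop (e : ℕ) (f : ℕ → ℕ) (y a w : ℕ) (hw : 1 ≤ w) (J : Finset ℕ) (hf : ∀ j ∈ J, 1 ≤ f j) :
    pri e f (a + primorial y * w) J = pri e f (a + primorial y * w) (cop e f y a J) := by
  classical
  ext j
  unfold pri cop
  rw [mem_filter, mem_filter, mem_filter]
  constructor
  · rintro ⟨h1, h2⟩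
    refine ⟨⟨h1, fun p hp hpy hd => ?_⟩, h2⟩
    have hpM : p ∣ primorial y := hp.dvd_primorial_iff.2 hpy
    have h3 : p ∣ f j ^ e + (a + primorial y * w) := by
      rw [← add_assoc]
      exact dvd_add hd (hpM.mul_right _)
    have h4 := (Nat.prime_dvd_prime_iff_eq hp h2).1 h3
    have h5 : p ≤ primorial y := Nat.le_of_dvd (primorial_pos y) hpM
    have h6 : primorial y ≤ primorial y * w := Nat.le_mul_of_pos_right _ hw
    have h7 : 1 ≤ f j ^ e := Nat.one_le_pow _ _ (hf j h1)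
    omega
  · rintro ⟨⟨h1, _⟩, h2⟩
    exact ⟨h1, h2⟩

open Classical in
theorem one2 (e : ℕ) (he : e = 1 ∨ e = 2) (B C D : ℕ) (ε : ℝ) (hε : 0 < ε) (hε1 : ε ≤ 1) : ∃ K0 : ℕ, ∀ K1 : ℕ, ∃ n0 : ℕ, ∀ n : ℕ, n0 ≤ n →
    ∀ y : ℕ, K0 * Real.log (Real.log n) ≤ y → y ≤ K1 * Real.log (Real.log n) →
    ∀ J : Finset ℕ, ∀ f : ℕ → ℕ, Set.InjOn f J →
    (∀ j ∈ J, 1 ≤ f j ∧ (f j : ℝ) ≤ n * Real.log n ^ B) →
    ∀ a g0 G : ℕ, a + primorial y * (g0 + G) ≤ n ^ e → (n : ℝ) ^ e ≤ primorial y * G * Real.log n ^ C →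
    (((Icc 1 G).filter (fun g => ε * ((cop e f y a J).card / (Vz y * (e * Real.log n))) + n / Real.log n ^ D <
      |((pri e f (a + primorial y * (g0 + g)) J).card : ℝ) - (cop e f y a J).card / (Vz y * (e * Real.log n))|)).card : ℝ) ≤ ε * G := by
  have he1 : 1 ≤ e := by omega
  have he2 : e ≤ 2 := by omega
  obtain ⟨δ, hδd⟩ : ∃ δ, δ = ε / 8 := ⟨_, rfl⟩
  have hδ : 0 < δ := by rw [hδd]; positivity
  have hδ8 : δ ≤ 1 / 8 := by rw [hδd]; linarith
  obtain ⟨K0, hK0⟩ := shifts2 e he (D + B) (C + 2 * B) δ hδ (by linarith)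
  refine ⟨2 * K0 + 1, fun K1 => ?_⟩
  obtain ⟨x0, hx0⟩ := hK0 K1
  obtain ⟨n1, hn1⟩ := ev_L' (max (Real.exp 1) (((1 + 4 * B) / δ) ^ 2 + (1 + 4 * B) ^ 2))
  obtain ⟨n2, hn2⟩ := ev_L' ((max 1 ((2 * C - Real.log δ) / δ)) ^ 2)
  obtain ⟨n3, hn3⟩ := Vz_inv_small 1
  obtain ⟨n4, hn4⟩ := ev_L' ((2 * (K1 : ℝ) + 1) ^ 2)
  refine ⟨max (max x0 n4) (max n1 (max n2 (max n3 1))), fun n hn y hy1 hy2 J f hf hfp a g0 G hg1 hg2 => ?_⟩
  have b1 : x0 ≤ n := le_trans (le_trans (le_max_left _ _) (le_max_left _ _)) hn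
  have b6 : n4 ≤ n := le_trans (le_trans (le_max_right _ _) (le_max_left _ _)) hn
  have b2 : n1 ≤ n := le_trans (le_trans (le_max_left _ _) (le_max_right _ _)) hn
  have b4 : n2 ≤ n := le_trans (le_trans (le_trans (le_max_left _ _) (le_max_right _ _)) (le_max_right _ _)) hn
  have b5 : n3 ≤ n := le_trans (le_trans (le_trans (le_trans (le_max_left _ _) (le_max_right _ _)) (le_max_right _ _)) (le_max_right _ _)) hn
  have b3 : 1 ≤ n := le_trans (le_trans (le_trans (le_trans (le_max_right _ _) (le_max_right _ _)) (le_max_right _ _)) (le_max_right _ _)) hn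
  have hL := hn1 n b2
  have hLb := hn2 n b4
  have hVi := hn3 n b5
  have hLk := hn4 n b6
  obtain ⟨L, hLd⟩ : ∃ L, L = Real.log n := ⟨_, rfl⟩
  rw [← hLd] at hL hLb hLk hVi hy1 hy2 hfp hg2 ⊢
  have hL1 : Real.exp 1 ≤ L := (le_max_left _ _).trans hL
  have hL2 : ((1 + 4 * B) / δ) ^ 2 + (1 + 4 * B) ^ 2 ≤ L := (le_max_right _ _).trans hL
  have hLe : 1 ≤ L := (Real.one_le_exp (by norm_num)).trans hL1
  have hL0 : 0 < L := by linarith
  have hs0 : 0 < √L := Real.sqrt_pos.2 hL0
  have hss : √L * √L = L := Real.mul_self_sqrt hL0.le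
  have hs1 : 1 ≤ √L := by rw [← Real.sqrt_one]; exact Real.sqrt_le_sqrt hLe
  have hs2 : (1 + 4 * (B : ℝ)) / δ ≤ √L := by
    apply Real.le_sqrt_of_sq_le
    have : 0 ≤ (1 + 4 * (B : ℝ)) ^ 2 := by positivity
    linarith
  have hs3 : 1 + 4 * (B : ℝ) ≤ √L := by
    apply Real.le_sqrt_of_sq_le
    have : 0 ≤ ((1 + 4 * (B : ℝ)) / δ) ^ 2 := by positivity
    linarith
  have hs4 : (2 * C - Real.log δ) / δ ≤ √L := by
    refine (le_max_right 1 _).trans ?_
    exact Real.le_sqrt_of_sq_le hLb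
  have hs5 : 2 * (K1 : ℝ) + 1 ≤ √L := Real.le_sqrt_of_sq_le hLk
  have hlog : Real.log L ≤ 2 * √L := by
    have h1 : Real.log L = 2 * Real.log (√L) := by
      rw [Real.log_sqrt hL0.le]
      ring
    have h2 := Real.log_le_sub_one_of_pos hs0
    linarith
  have hlog1 : 1 ≤ Real.log L := by
    rw [← Real.log_exp 1]
    exact Real.log_le_log (Real.exp_pos 1) hL1
  have hnr : (1 : ℝ) ≤ n := by exact_mod_cast b3
  have hn0 : (0 : ℝ) < n := by linarith
  have hLB : 1 ≤ L ^ B := one_le_pow₀ hLe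
  have hVy := Vz_pos y
  have her : (1 : ℝ) ≤ e := by exact_mod_cast he1
  have her2 : (e : ℝ) ≤ 2 := by exact_mod_cast he2
  have hG0 : (0 : ℝ) ≤ G := Nat.cast_nonneg G
  -- y
  have hy0 : 1 ≤ y := by
    have h1 : (1 : ℝ) ≤ y := by
      refine le_trans ?_ hy1
      push_cast
      have : 0 ≤ (K0 : ℝ) * Real.log L := mul_nonneg (Nat.cast_nonneg _) (by linarith)
      linarith
    exact_mod_cast h1
  have hyL : (y : ℝ) ≤ L ^ 1 := by
    rw [pow_one]
    calc (y : ℝ) ≤ K1 * Real.log L := hy2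
      _ ≤ K1 * (2 * √L) := mul_le_mul_of_nonneg_left hlog (Nat.cast_nonneg _)
      _ = (2 * K1) * √L := by ring
      _ ≤ √L * √L := mul_le_mul_of_nonneg_right (by linarith) hs0.le
      _ = L := hss
  have hVL : (Vz y)⁻¹ ≤ L := hVi y hy0 hyL
  -- the coprime indices
  obtain ⟨Jc, hJc⟩ : ∃ Jc, Jc = cop e f y a J := ⟨_, rfl⟩
  have hJcsub : Jc ⊆ J := by rw [hJc]; exact filter_subset _ _
  rw [← hJc]
  obtain ⟨m, hm⟩ : ∃ m : ℝ, m = (Jc.card : ℝ) := ⟨_, rfl⟩
  have hm0 : 0 ≤ m := by rw [hm]; exact Nat.cast_nonneg _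
  rw [← hm]
  have hden : 0 < Vz y * (e * L) := by positivity
  have hpc : ∀ g ∈ Icc 1 G, pri e f (a + primorial y * (g0 + g)) J = pri e f (a + primorial y * (g0 + g)) Jc := by
    intro g hg
    rw [hJc]
    exact pri_cop e f y a (g0 + g) (by have := (mem_Icc.1 hg).1; omega) J (fun j hj => (hfp j hj).1)
  have hcm : ∀ g ∈ Icc 1 G, ((pri e f (a + primorial y * (g0 + g)) J).card : ℝ) ≤ m := by
    intro g hg
    rw [hpc g hg, hm]
    exact_mod_cast card_filter_le _ _
  have hEm : m / (Vz y * (e * L)) ≤ m := by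
    rw [div_le_iff₀ hden]
    have h1 : 1 ≤ Vz y * (e * L) := by
      rw [inv_le_iff_one_le_mul₀ hVy] at hVL
      nlinarith
    nlinarith
  have hE0 : 0 ≤ m / (Vz y * (e * L)) := by positivity
  by_cases hsmall : m * L ^ D < n
  · -- few indices
    have h1 : m < n / L ^ D := by
      rw [lt_div_iff₀ (by positivity)]
      exact hsmall
    rw [filter_false_of_mem]
    · simp only [card_empty, Nat.cast_zero]
      positivity
    · intro g hg hlt
      have h2 := hcm g hg
      have h3 : (0 : ℝ) ≤ ((pri e f (a + primorial y * (g0 + g)) J).card : ℝ) := Nat.cast_nonneg _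
      have h4 : |((pri e f (a + primorial y * (g0 + g)) J).card : ℝ) - m / (Vz y * (e * L))| ≤ m := by
        rw [abs_le]
        constructor <;> linarith
      have h5 : 0 ≤ ε * (m / (Vz y * (e * L))) := by positivity
      linarith
  push Not at hsmall
  have hmpos : 0 < m := by
    by_contra h
    push Not at h
    have : m * L ^ D ≤ 0 := mul_nonpos_of_nonpos_of_nonneg h (by positivity)
    linarith
  -- x
  obtain ⟨x, hxd⟩ : ∃ x, x = ⌊(n : ℝ) * L ^ B⌋₊ := ⟨_, rfl⟩
  have hnx : n ≤ x := by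
    rw [hxd]
    apply Nat.le_floor
    exact le_mul_of_one_le_right hn0.le hLB
  have hxu : (x : ℝ) ≤ n * L ^ B := by
    rw [hxd]
    exact Nat.floor_le (by positivity)
  have hnxr : (n : ℝ) ≤ x := by exact_mod_cast hnx
  have hx0r : (0 : ℝ) < x := by linarith
  have hLx : L ≤ Real.log x := by
    rw [hLd]
    exact Real.log_le_log hn0 hnxr
  have hlx : Real.log x ≤ L + B * Real.log L := by
    refine (Real.log_le_log hx0r hxu).trans (le_of_eq ?_)
    rw [Real.log_mul hn0.ne' (by positivity), Real.log_pow, ← hLd]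
  have hsL : √L ≤ L := by
    calc √L = √L * 1 := (mul_one _).symm
      _ ≤ √L * √L := mul_le_mul_of_nonneg_left hs1 hs0.le
      _ = L := hss
  have hlx2 : Real.log x ≤ L ^ 2 := by
    refine hlx.trans ?_
    have hB0 : (0 : ℝ) ≤ B := Nat.cast_nonneg B
    have h1 : (B : ℝ) * Real.log L ≤ B * (2 * √L) := mul_le_mul_of_nonneg_left hlog hB0
    have h2 : (B : ℝ) * √L ≤ B * L := mul_le_mul_of_nonneg_left hsL hB0
    have h3 : (1 + 4 * (B : ℝ)) * L ≤ L * L := mul_le_mul_of_nonneg_right (hs3.trans hsL) hL0.le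
    have h4 : 0 ≤ (B : ℝ) * L := mul_nonneg hB0 hL0.le
    have h5 : L ^ 2 = L * L := sq L
    rw [h5]
    linarith
  have hllx : Real.log (Real.log x) ≤ 2 * Real.log L := by
    have := Real.log_le_log (by linarith) hlx2
    rwa [Real.log_pow] at this
  have hllx' : Real.log L ≤ Real.log (Real.log x) := Real.log_le_log hL0 hLx
  have hinjc : Set.InjOn f (Jc : Set ℕ) := hf.mono (by exact_mod_cast hJcsub)
  have key := hx0 x (b1.trans hnx) y (by
    refine le_trans (mul_le_mul_of_nonneg_left hllx (Nat.cast_nonneg _)) (le_trans ?_ hy1)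
    push_cast
    have : (K0 : ℝ) * (2 * Real.log L) = (2 * K0) * Real.log L := by ring
    rw [this]
    have : (2 * (K0 : ℝ) + 1) * Real.log L = (2 * K0) * Real.log L + Real.log L := by ring
    linarith) (hy2.trans (mul_le_mul_of_nonneg_left hllx' (Nat.cast_nonneg _))) a (Jc.image f) (by
      intro s hs
      rw [mem_image] at hs
      obtain ⟨j, hj, rfl⟩ := hs
      rw [mem_Icc]
      refine ⟨(hfp j (hJcsub hj)).1, ?_⟩
      rw [hxd]
      exact Nat.le_floor (hfp j (hJcsub hj)).2) (by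
      rw [card_image_of_injOn hinjc, ← hm]
      calc (x : ℝ) ≤ n * L ^ B := hxu
        _ ≤ (m * L ^ D) * L ^ B := by gcongr
        _ = m * L ^ (D + B) := by rw [pow_add]; ring
        _ ≤ m * Real.log x ^ (D + B) := by gcongr) (by
      intro s hs p hp hpy hd
      rw [mem_image] at hs
      obtain ⟨j, hj, rfl⟩ := hs
      rw [hJc] at hj
      exact (mem_filter.1 hj).2 p hp hpy hd) g0 G (hg1.trans (Nat.pow_le_pow_left hnx e)) (by
      have h1 : (L ^ B) ^ e ≤ L ^ (2 * B) := by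
        rw [← pow_mul]
        exact pow_le_pow_right₀ hLe (by rw [mul_comm]; exact Nat.mul_le_mul_right B he2)
      calc (x : ℝ) ^ e ≤ (n * L ^ B) ^ e := pow_le_pow_left₀ hx0r.le hxu e
        _ = (n : ℝ) ^ e * (L ^ B) ^ e := mul_pow _ _ _
        _ ≤ (primorial y * G * L ^ C) * L ^ (2 * B) := mul_le_mul hg2 h1 (by positivity) (by positivity)
        _ = primorial y * G * L ^ (C + 2 * B) := by rw [pow_add]; ring
        _ ≤ primorial y * G * Real.log x ^ (C + 2 * B) := by gcongr)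
  rw [card_image_of_injOn hinjc, ← hm] at key
  refine le_trans ?_ (key.trans (by
    have := mul_nonneg hε.le hG0
    rw [hδd]
    linarith))
  -- the two logarithms
  have hlogx : Real.log (2 * (x : ℝ) ^ e) ≤ (1 + δ) * (e * L) := by
    rw [Real.log_mul (by norm_num) (by positivity), Real.log_pow]
    have h4 : (e : ℝ) * Real.log x ≤ e * (L + B * Real.log L) := by gcongr
    have h5 : (e : ℝ) * (B * Real.log L) ≤ 2 * (B * (2 * √L)) := by gcongr
    have h6 : 1 + 4 * (B : ℝ) ≤ δ * √L := by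
      rw [div_le_iff₀ hδ] at hs2
      linarith
    have h7 : (1 + 4 * (B : ℝ)) * √L ≤ δ * √L * √L := mul_le_mul_of_nonneg_right h6 hs0.le
    have h8 : Real.log 2 ≤ √L := by
      have := Real.log_two_lt_d9
      linarith
    have h9 : δ * L * 1 ≤ δ * L * e := mul_le_mul_of_nonneg_left her (by positivity)
    have h10 : δ * √L * √L = δ * L := by rw [mul_assoc, hss]
    have h12 : (1 + δ) * (e * L) = e * L + δ * L * e := by ring
    have h13 : (e : ℝ) * (L + B * Real.log L) = e * L + e * (B * Real.log L) := by ring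
    have h14 : (1 + 4 * (B : ℝ)) * √L = √L + 2 * (B * (2 * √L)) := by ring
    rw [h12]
    rw [h13] at h4
    rw [h14] at h7
    linarith
  have hMG : (n : ℝ) ^ e / L ^ C ≤ primorial y * G := by
    rw [div_le_iff₀ (by positivity)]
    exact hg2
  have hloglow : (1 - δ) * (e * L) ≤ Real.log (δ * (primorial y * G)) := by
    have h1 : Real.log (δ * ((n : ℝ) ^ e / L ^ C)) ≤ Real.log (δ * (primorial y * G)) := by
      apply Real.log_le_log (by positivity)
      exact mul_le_mul_of_nonneg_left hMG hδ.le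
    refine le_trans ?_ h1
    rw [Real.log_mul hδ.ne' (by positivity), Real.log_div (by positivity) (by positivity), Real.log_pow, Real.log_pow, ← hLd]
    have h2 : (2 * C - Real.log δ) ≤ δ * √L := by
      rw [div_le_iff₀ hδ] at hs4
      linarith
    have h3 : (2 * C - Real.log δ) * √L ≤ δ * √L * √L := mul_le_mul_of_nonneg_right h2 hs0.le
    have h4 : δ * √L * √L = δ * L := by rw [mul_assoc, hss]
    have h5 : (C : ℝ) * Real.log L ≤ C * (2 * √L) := mul_le_mul_of_nonneg_left hlog (Nat.cast_nonneg _)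
    have h6 : 0 ≤ -Real.log δ := by
      have := Real.log_nonpos hδ.le (by linarith)
      linarith
    have h7 : -Real.log δ * 1 ≤ -Real.log δ * √L := mul_le_mul_of_nonneg_left hs1 h6
    have h8 : δ * L * 1 ≤ δ * L * e := mul_le_mul_of_nonneg_left her (by positivity)
    have h9 : (1 - δ) * (e * L) = e * L - δ * L * e := by ring
    rw [h9]
    nlinarith
  have hsub : (Icc 1 G).filter (fun g => ε * (m / (Vz y * (e * L))) + n / L ^ D <
      |((pri e f (a + primorial y * (g0 + g)) J).card : ℝ) - m / (Vz y * (e * L))|) ⊆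
      (Icc 1 G).filter (fun g => ¬ ((1 - 3 * δ) * (m * (Vz y)⁻¹) ≤
        (((Jc.image f).filter (fun s => (s ^ e + (a + primorial y * (g0 + g))).Prime)).card : ℝ) * Real.log (2 * (x : ℝ) ^ e) ∧
      (((Jc.image f).filter (fun s => (s ^ e + (a + primorial y * (g0 + g))).Prime)).card : ℝ) * Real.log (δ * (primorial y * G)) ≤
        (1 + 3 * δ) * (m * (Vz y)⁻¹))) := by
    intro g hg
    rw [mem_filter] at hg ⊢
    refine ⟨hg.1, fun hcon => ?_⟩
    have h1 : ((Jc.image f).filter (fun s => (s ^ e + (a + primorial y * (g0 + g))).Prime)).card =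
        (pri e f (a + primorial y * (g0 + g)) J).card := by
      rw [hpc g hg.1]
      unfold pri
      rw [filter_image, card_image_of_injOn]
      intro u hu v hv huv
      exact hinjc (mem_coe.2 (mem_filter.1 (mem_coe.1 hu)).1) (mem_coe.2 (mem_filter.1 (mem_coe.1 hv)).1) huv
    rw [h1] at hcon
    have h2 := hg.2
    obtain ⟨c, hc⟩ : ∃ c : ℝ, c = ((pri e f (a + primorial y * (g0 + g)) J).card : ℝ) := ⟨_, rfl⟩
    have hc0 : 0 ≤ c := by rw [hc]; exact Nat.cast_nonneg _
    rw [← hc] at h2 hcon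
    obtain ⟨hlo, hup⟩ := hcon
    obtain ⟨E, hE⟩ : ∃ E : ℝ, E = m / (Vz y * (e * L)) := ⟨_, rfl⟩
    have heL : 0 < (e : ℝ) * L := by positivity
    have hmE : m * (Vz y)⁻¹ = E * (e * L) := by
      rw [hE]
      field_simp
    rw [← hE] at h2 hE0
    rw [hmE] at hlo hup
    have k1 : (1 - 3 * δ) * E ≤ c * (1 + δ) := by
      have : ((1 - 3 * δ) * E) * (e * L) ≤ (c * (1 + δ)) * (e * L) := by
        calc ((1 - 3 * δ) * E) * (e * L) = (1 - 3 * δ) * (E * (e * L)) := by ring
          _ ≤ c * Real.log (2 * (x : ℝ) ^ e) := hlo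
          _ ≤ c * ((1 + δ) * (e * L)) := mul_le_mul_of_nonneg_left hlogx hc0
          _ = _ := by ring
      exact le_of_mul_le_mul_right this heL
    have k2 : c * (1 - δ) ≤ (1 + 3 * δ) * E := by
      have : (c * (1 - δ)) * (e * L) ≤ ((1 + 3 * δ) * E) * (e * L) := by
        calc (c * (1 - δ)) * (e * L) = c * ((1 - δ) * (e * L)) := by ring
          _ ≤ c * Real.log (δ * (primorial y * G)) := mul_le_mul_of_nonneg_left hloglow hc0
          _ ≤ (1 + 3 * δ) * (E * (e * L)) := hup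
          _ = _ := by ring
      exact le_of_mul_le_mul_right this heL
    have hnD : 0 ≤ (n : ℝ) / L ^ D := by positivity
    have k3 : |c - E| ≤ ε * E := by
      have e8 : ε = 8 * δ := by rw [hδd]; ring
      rw [e8, abs_le]
      constructor
      · -- E - c ≤ 8 δ E
        by_contra hneg
        push Not at hneg
        have h3 : c < (1 - 8 * δ) * E := by linarith
        have h4 : c * (1 + δ) < (1 - 8 * δ) * E * (1 + δ) := mul_lt_mul_of_pos_right h3 (by linarith)
        nlinarith [mul_nonneg hδ.le hE0, mul_nonneg (mul_nonneg hδ.le hδ.le) hE0]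
      · by_contra hneg
        push Not at hneg
        have h3 : (1 + 8 * δ) * E < c := by linarith
        have h4 : (1 + 8 * δ) * E * (1 - δ) < c * (1 - δ) := mul_lt_mul_of_pos_right h3 (by linarith)
        nlinarith [mul_nonneg hδ.le hE0, mul_nonneg (mul_nonneg hδ.le hδ.le) hE0, mul_nonneg (mul_nonneg hδ.le hE0) (by linarith : (0 : ℝ) ≤ 1 / 8 - δ)]
    linarith
  exact_mod_cast card_le_card hsub

end Pool.Agent.U918.SM
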