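import Mathlib
import Pool.Agent.Y877.SxJ
import Pool.Agent.U918.SM.One

/-! Several conditions: the number of indices at which all the shifted numbers are prime is the one
predicted by the small primes. -/

set_option autoImplicit false

namespace Pool.Agent.U918.SM
open Finset Pool.Agent.H373R2.T7 Pool.Agent.Y877.SX

/-- the `j ∈ J` for which all `f i j ^ e i + a i` are prime to all primes up to `y` -/
noncomputable def copAll {r : ℕ} (e : Fin r → ℕ) (f : Fin r → ℕ → ℕ) (y : ℕ) (a : Fin r → ℕ)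
    (J : Finset ℕ) : Finset ℕ :=
  open Classical in J.filter (fun j => ∀ i, ∀ p : ℕ, p.Prime → p ≤ y → ¬ p ∣ f i j ^ e i + a i)

/-- the `j ∈ J` for which all `f i j ^ e i + h i` are prime -/
noncomputable def priAll {r : ℕ} (e : Fin r → ℕ) (f : Fin r → ℕ → ℕ) (h : Fin r → ℕ) (J : Finset ℕ) :
    Finset ℕ :=
  open Classical in J.filter (fun j => ∀ i, (f i j ^ e i + h i).Prime)

theorem priAll_succ {r : ℕ} (e : Fin (r + 1) → ℕ) (f : Fin (r + 1) → ℕ → ℕ) (h : Fin (r + 1) → ℕ)
    (J : Finset ℕ) :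
    priAll e f h J = priAll (fun i => e i.succ) (fun i => f i.succ) (fun i => h i.succ)
      (pri (e 0) (f 0) (h 0) J) := by
  unfold priAll pri
  rw [filter_filter]
  apply filter_congr
  intro j _
  rw [Fin.forall_fin_succ]

theorem copAll_succ {r : ℕ} (e : Fin (r + 1) → ℕ) (f : Fin (r + 1) → ℕ → ℕ) (y : ℕ)
    (a : Fin (r + 1) → ℕ) (J : Finset ℕ) :
    copAll e f y a J = cop (e 0) (f 0) y (a 0)
      (copAll (fun i => e i.succ) (fun i => f i.succ) y (fun i => a i.succ) J) := by
  ext j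
  simp only [copAll, cop, mem_filter, Fin.forall_fin_succ]
  tauto

theorem copAll_pri {r : ℕ} (e : Fin r → ℕ) (f : Fin r → ℕ → ℕ) (y : ℕ) (a : Fin r → ℕ)
    (e0 : ℕ) (f0 : ℕ → ℕ) (h0 : ℕ) (J : Finset ℕ) :
    copAll e f y a (pri e0 f0 h0 J) = pri e0 f0 h0 (copAll e f y a J) := by
  ext j
  simp only [copAll, pri, mem_filter]
  tauto

theorem combine (P T Q c c0 ε N N' : ℝ) (hε : 0 < ε) (hε1 : ε ≤ 1) (hc0 : 0 ≤ c) (hc1 : c ≤ 1)
    (hc00 : 0 ≤ c0) (hQ : 0 ≤ Q) (hN' : 0 ≤ N') (hNN : 3 * N' ≤ N)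
    (h1 : |P - T * c| ≤ ε / 4 * (T * c) + N') (h2 : |T - Q * c0| ≤ ε / 4 * (Q * c0) + N') :
    |P - Q * (c0 * c)| ≤ ε * (Q * (c0 * c)) + N := by
  have h3 : P - Q * (c0 * c) = (P - T * c) + c * (T - Q * c0) := by ring
  rw [h3]
  refine (abs_add_le _ _).trans ?_
  rw [abs_mul, abs_of_nonneg hc0]
  have h4 : T ≤ Q * c0 + (ε / 4 * (Q * c0) + N') := by
    have := (abs_le.1 h2).2
    linarith
  have h5 : c * |T - Q * c0| ≤ c * (ε / 4 * (Q * c0) + N') := mul_le_mul_of_nonneg_left h2 hc0
  have h6 : T * c ≤ (Q * c0 + (ε / 4 * (Q * c0) + N')) * c := mul_le_mul_of_nonneg_right h4 hc0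
  have h7 : ε / 4 * (T * c) ≤ ε / 4 * ((Q * c0 + (ε / 4 * (Q * c0) + N')) * c) :=
    mul_le_mul_of_nonneg_left h6 (by linarith)
  obtain ⟨W, hW⟩ : ∃ W, W = Q * (c0 * c) := ⟨_, rfl⟩
  have hW0 : 0 ≤ W := by rw [hW]; positivity
  have h8 : ε / 4 * ((Q * c0 + (ε / 4 * (Q * c0) + N')) * c) = ε / 4 * W + ε / 4 * (ε / 4 * W) + ε / 4 * (N' * c) := by
    rw [hW]; ring
  have h9 : c * (ε / 4 * (Q * c0) + N') = ε / 4 * W + N' * c := by rw [hW]; ring
  have h10 : N' * c ≤ N' := mul_le_of_le_one_right hN' hc1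
  have h11 : ε / 4 * (N' * c) ≤ 1 * N' := mul_le_mul (by linarith) h10 (by positivity) (by norm_num)
  have h12 : ε / 4 * (ε / 4 * W) ≤ 1 * (ε / 4 * W) := mul_le_mul_of_nonneg_right (by linarith) (by positivity)
  have h13 : 0 ≤ ε * W := by positivity
  rw [← hW]
  linarith

open Classical in
theorem multi2 (r : ℕ) : ∀ (B C D : ℕ) (ε : ℝ), 0 < ε → ε ≤ 1 → ∃ K0 : ℕ, ∀ K1 : ℕ, ∃ n0 : ℕ,
    ∀ n : ℕ, n0 ≤ n →
    ∀ y : ℕ, K0 * Real.log (Real.log n) ≤ y → y ≤ K1 * Real.log (Real.log n) →
    ∀ e : Fin r → ℕ, (∀ i, e i = 1 ∨ e i = 2) →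
    ∀ J : Finset ℕ, ∀ f : Fin r → ℕ → ℕ, (∀ i, Set.InjOn (f i) J) →
    (∀ i, ∀ j ∈ J, 1 ≤ f i j ∧ (f i j : ℝ) ≤ n * Real.log n ^ B) →
    ∀ a g0 G : Fin r → ℕ, (∀ i, a i + primorial y * (g0 i + G i) ≤ n ^ e i) →
    (∀ i, (n : ℝ) ^ e i ≤ primorial y * G i * Real.log n ^ C) →
    (((Fintype.piFinset (fun i => Icc 1 (G i))).filter (fun g =>
      ε * ((copAll e f y a J).card * ∏ i, (Vz y * (e i * Real.log n))⁻¹) + n / Real.log n ^ D <
      |((priAll e f (fun i => a i + primorial y * (g0 i + g i)) J).card : ℝ) -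
        (copAll e f y a J).card * ∏ i, (Vz y * (e i * Real.log n))⁻¹|)).card : ℝ) ≤ ε * ∏ i, (G i : ℝ) := by
  induction r with
  | zero =>
    intro B C D ε hε hε1
    obtain ⟨n1, hn1⟩ := ev_L' 1
    refine ⟨0, fun K1 => ⟨n1, fun n hn y _ _ e _ J f _ _ a g0 G _ _ => ?_⟩⟩
    have hL := hn1 n hn
    rw [filter_false_of_mem]
    · simp only [card_empty, Nat.cast_zero]
      have : (0 : ℝ) ≤ ∏ i : Fin 0, (G i : ℝ) := prod_nonneg fun i _ => Nat.cast_nonneg _
      positivity
    · intro g _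
      have h1 : priAll e f (fun i => a i + primorial y * (g0 i + g i)) J = J := by
        unfold priAll
        exact filter_true_of_mem fun j _ i => i.elim0
      have h2 : copAll e f y a J = J := by
        unfold copAll
        exact filter_true_of_mem fun j _ i => i.elim0
      rw [h1, h2, Fin.prod_univ_zero, mul_one, sub_self, abs_zero, not_lt]
      positivity
  | succ r ih =>
    intro B C D ε hε hε1
    obtain ⟨Ka, hKa⟩ := one2 1 (Or.inl rfl) B C (D + 1) (ε / 4) (by positivity) (by linarith)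
    obtain ⟨Kb, hKb⟩ := one2 2 (Or.inr rfl) B C (D + 1) (ε / 4) (by positivity) (by linarith)
    obtain ⟨Kc, hKc⟩ := ih B C (D + 1) (ε / 4) (by positivity) (by linarith)
    refine ⟨max Ka (max Kb Kc) + 1, fun K1 => ?_⟩
    obtain ⟨na, hna⟩ := hKa K1
    obtain ⟨nb, hnb⟩ := hKb K1
    obtain ⟨nc, hnc⟩ := hKc K1
    obtain ⟨n1, hn1⟩ := ev_L' (max 4 ((2 * (K1 : ℝ) + 1) ^ 2))
    obtain ⟨n3, hn3⟩ := Vz_inv_small 1
    refine ⟨max na (max nb (max nc (max n1 n3))), fun n hn y hy1 hy2 e he J f hi hf a g0 G a1 a2 => ?_⟩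
    have b1 : na ≤ n := le_trans (le_max_left _ _) hn
    have b2 : nb ≤ n := le_trans (le_trans (le_max_left _ _) (le_max_right _ _)) hn
    have b3 : nc ≤ n :=
      le_trans (le_trans (le_trans (le_max_left _ _) (le_max_right _ _)) (le_max_right _ _)) hn
    have b4 : n1 ≤ n :=
      le_trans (le_trans (le_trans (le_trans (le_max_left _ _) (le_max_right _ _)) (le_max_right _ _)) (le_max_right _ _)) hn
    have b5 : n3 ≤ n :=
      le_trans (le_trans (le_trans (le_trans (le_max_right _ _) (le_max_right _ _)) (le_max_right _ _)) (le_max_right _ _)) hn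
    have hL' := hn1 n b4
    have hL : 4 ≤ Real.log n := (le_max_left _ _).trans hL'
    have hLk : (2 * (K1 : ℝ) + 1) ^ 2 ≤ Real.log n := (le_max_right _ _).trans hL'
    have hlL1 : 1 ≤ Real.log (Real.log n) := by
      rw [← Real.log_exp 1]
      apply Real.log_le_log (Real.exp_pos 1)
      have := Real.exp_one_lt_d9
      linarith
    have hlL : 0 ≤ Real.log (Real.log n) := by linarith
    have hL0 : 0 < Real.log n := by linarith
    have hcast : ((max Ka (max Kb Kc) + 1 : ℕ) : ℝ) = max (Ka : ℝ) (max (Kb : ℝ) (Kc : ℝ)) + 1 := by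
      push_cast
      rfl
    rw [hcast] at hy1
    have hymax : max (Ka : ℝ) (max (Kb : ℝ) (Kc : ℝ)) * Real.log (Real.log n) + Real.log (Real.log n) ≤ y := by
      linarith
    have hya : (Ka : ℝ) * Real.log (Real.log n) ≤ y := by
      have := mul_le_mul_of_nonneg_right (le_max_left (Ka : ℝ) (max (Kb : ℝ) (Kc : ℝ))) hlL
      linarith
    have hyb : (Kb : ℝ) * Real.log (Real.log n) ≤ y := by
      have := mul_le_mul_of_nonneg_right ((le_max_left (Kb : ℝ) (Kc : ℝ)).trans
        (le_max_right (Ka : ℝ) (max (Kb : ℝ) (Kc : ℝ)))) hlL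
      linarith
    have hyc : (Kc : ℝ) * Real.log (Real.log n) ≤ y := by
      have := mul_le_mul_of_nonneg_right ((le_max_right (Kb : ℝ) (Kc : ℝ)).trans
        (le_max_right (Ka : ℝ) (max (Kb : ℝ) (Kc : ℝ)))) hlL
      linarith
    have hy0 : 1 ≤ y := by
      have h1 : (1 : ℝ) ≤ y := by
        have : 0 ≤ (Ka : ℝ) * Real.log (Real.log n) := mul_nonneg (Nat.cast_nonneg _) hlL
        have := mul_le_mul_of_nonneg_right (le_max_left (Ka : ℝ) (max (Kb : ℝ) (Kc : ℝ))) hlL
        linarith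
      exact_mod_cast h1
    have hVy := Vz_pos y
    have her : ∀ i, (1 : ℝ) ≤ e i := by
      intro i
      rcases he i with h | h <;> rw [h] <;> norm_num
    have hyL : (y : ℝ) ≤ Real.log n ^ 1 := by
      rw [pow_one]
      have hs0 : 0 < √(Real.log n) := Real.sqrt_pos.2 hL0
      have hs5 : 2 * (K1 : ℝ) + 1 ≤ √(Real.log n) := Real.le_sqrt_of_sq_le hLk
      have hlog : Real.log (Real.log n) ≤ 2 * √(Real.log n) := by
        have h1 : Real.log (Real.log n) = 2 * Real.log (√(Real.log n)) := by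
          rw [Real.log_sqrt hL0.le]
          ring
        have h2 := Real.log_le_sub_one_of_pos hs0
        linarith
      calc (y : ℝ) ≤ K1 * Real.log (Real.log n) := hy2
        _ ≤ K1 * (2 * √(Real.log n)) := mul_le_mul_of_nonneg_left hlog (Nat.cast_nonneg _)
        _ = (2 * K1) * √(Real.log n) := by ring
        _ ≤ √(Real.log n) * √(Real.log n) := mul_le_mul_of_nonneg_right (by linarith) hs0.le
        _ = Real.log n := Real.mul_self_sqrt hL0.le
    have hVL : (Vz y)⁻¹ ≤ Real.log n := hn3 n b5 y hy0 hyL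
    have hc1 : ∀ i, (Vz y * (e i * Real.log n))⁻¹ ≤ 1 := by
      intro i
      apply inv_le_one_of_one_le₀
      rw [inv_le_iff_one_le_mul₀ hVy] at hVL
      have h2 := her i
      have h3 : Real.log n * 1 ≤ Real.log n * e i := mul_le_mul_of_nonneg_left h2 hL0.le
      nlinarith
    have hc0 : ∀ i, 0 ≤ (Vz y * (e i * Real.log n))⁻¹ := by
      intro i
      have := her i
      positivity
    -- the first condition, at the indices good for the others
    obtain ⟨Jc, hJc⟩ : ∃ Jc, Jc = copAll (fun i => e i.succ) (fun i => f i.succ) y (fun i => a i.succ) J :=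
      ⟨_, rfl⟩
    have hJcsub : Jc ⊆ J := by rw [hJc]; exact filter_subset _ _
    have hQ : copAll e f y a J = cop (e 0) (f 0) y (a 0) Jc := by rw [hJc]; exact copAll_succ e f y a J
    obtain ⟨Bad, hBad⟩ : ∃ Bad : Finset ℕ, Bad = (Icc 1 (G 0)).filter (fun g =>
        ε / 4 * ((cop (e 0) (f 0) y (a 0) Jc).card / (Vz y * (e 0 * Real.log n))) + n / Real.log n ^ (D + 1) <
        |((pri (e 0) (f 0) (a 0 + primorial y * (g0 0 + g)) Jc).card : ℝ) -
          (cop (e 0) (f 0) y (a 0) Jc).card / (Vz y * (e 0 * Real.log n))|) := ⟨_, rfl⟩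
    have k1 : (Bad.card : ℝ) ≤ ε / 4 * G 0 := by
      rw [hBad]
      have h1 := a1 0
      have h2 := a2 0
      have h4 := (hi 0).mono (show (Jc : Set ℕ) ⊆ J by exact_mod_cast hJcsub)
      have h5 : ∀ j ∈ Jc, 1 ≤ f 0 j ∧ (f 0 j : ℝ) ≤ n * Real.log n ^ B := fun j hj => hf 0 j (hJcsub hj)
      rcases he 0 with h3 | h3
      · rw [h3] at h1 h2 ⊢
        exact hna n b1 y hya hy2 Jc (f 0) h4 h5 (a 0) (g0 0) (G 0) h1 h2
      · rw [h3] at h1 h2 ⊢
        exact hnb n b2 y hyb hy2 Jc (f 0) h4 h5 (a 0) (g0 0) (G 0) h1 h2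
    obtain ⟨P, hP⟩ : ∃ P : ℕ → (Fin r → ℕ) → Prop, ∀ u v, P u v ↔
        (ε * ((copAll e f y a J).card * ∏ i, (Vz y * (e i * Real.log n))⁻¹) + n / Real.log n ^ D <
          |((priAll e f (fun i => a i + primorial y * (g0 i + (Fin.cons u v : Fin (r + 1) → ℕ) i)) J).card : ℝ) -
          (copAll e f y a J).card * ∏ i, (Vz y * (e i * Real.log n))⁻¹|) := ⟨_, fun _ _ => Iff.rfl⟩
    have hfub := fub (Icc 1 (G 0)) (Fintype.piFinset (fun i : Fin r => Icc 1 (G i.succ))) P
      Bad (ε / 4) (ε / 4) (by positivity) (by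
        refine k1.trans (le_of_eq ?_)
        simp) (by
      intro u hu hub
      obtain ⟨J', hJ'⟩ : ∃ J', J' = pri (e 0) (f 0) (a 0 + primorial y * (g0 0 + u)) J := ⟨_, rfl⟩
      have hsubJ : J' ⊆ J := by
        rw [hJ']
        exact filter_subset _ _
      have hT : copAll (fun i => e i.succ) (fun i => f i.succ) y (fun i => a i.succ) J' =
          pri (e 0) (f 0) (a 0 + primorial y * (g0 0 + u)) Jc := by
        rw [hJ', hJc]
        exact copAll_pri _ _ _ _ _ _ _ _
      have hgood : |((pri (e 0) (f 0) (a 0 + primorial y * (g0 0 + u)) Jc).card : ℝ) -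
          (cop (e 0) (f 0) y (a 0) Jc).card / (Vz y * (e 0 * Real.log n))| ≤
          ε / 4 * ((cop (e 0) (f 0) y (a 0) Jc).card / (Vz y * (e 0 * Real.log n))) + n / Real.log n ^ (D + 1) := by
        by_contra hcon
        push Not at hcon
        rw [hBad] at hub
        exact hub (mem_filter.2 ⟨hu, hcon⟩)
      have k2 := hnc n b3 y hyc hy2 (fun i => e i.succ) (fun i => he i.succ) J'
        (fun i => f i.succ) (fun i => (hi i.succ).mono (by exact_mod_cast hsubJ))
        (fun i j hj => hf i.succ j (hsubJ hj)) (fun i => a i.succ) (fun i => g0 i.succ) (fun i => G i.succ)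
        (fun i => a1 i.succ) (fun i => a2 i.succ)
      have hcardT : ((Fintype.piFinset (fun i : Fin r => Icc 1 (G i.succ))).card : ℝ) =
          ∏ i : Fin r, (G i.succ : ℝ) := by
        rw [Fintype.card_piFinset]
        push_cast
        apply prod_congr rfl
        intro i _
        simp
      rw [hcardT]
      refine le_trans ?_ k2
      have hsub : (Fintype.piFinset (fun i : Fin r => Icc 1 (G i.succ))).filter (fun b => P u b) ⊆
          (Fintype.piFinset (fun i : Fin r => Icc 1 (G i.succ))).filter (fun g =>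
            ε / 4 * ((copAll (fun i => e i.succ) (fun i => f i.succ) y (fun i => a i.succ) J').card *
              ∏ i : Fin r, (Vz y * (e i.succ * Real.log n))⁻¹) + n / Real.log n ^ (D + 1) <
            |((priAll (fun i => e i.succ) (fun i => f i.succ)
              (fun i => a i.succ + primorial y * (g0 i.succ + g i)) J').card : ℝ) -
            (copAll (fun i => e i.succ) (fun i => f i.succ) y (fun i => a i.succ) J').card *
              ∏ i : Fin r, (Vz y * (e i.succ * Real.log n))⁻¹|) := by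
        intro b hb
        rw [mem_filter] at hb ⊢
        refine ⟨hb.1, ?_⟩
        have h3 := (hP u b).1 hb.2
        by_contra hcon
        push Not at hcon
        rw [priAll_succ] at h3
        simp only [Fin.cons_zero, Fin.cons_succ] at h3
        rw [← hJ', hQ] at h3
        rw [hT] at hcon
        obtain ⟨c, hc⟩ : ∃ c : ℝ, c = ∏ i : Fin r, (Vz y * (e i.succ * Real.log n))⁻¹ := ⟨_, rfl⟩
        rw [Fin.prod_univ_succ, ← hc] at h3
        rw [← hc] at hcon
        have hcc0 : 0 ≤ c := by rw [hc]; exact prod_nonneg fun i _ => hc0 _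
        have hcc1 : c ≤ 1 := by rw [hc]; exact prod_le_one (fun i _ => hc0 _) (fun i _ => hc1 _)
        have hnr : (0 : ℝ) ≤ n := Nat.cast_nonneg n
        have hfin := combine _ _ ((cop (e 0) (f 0) y (a 0) Jc).card : ℝ) c ((Vz y * (e 0 * Real.log n))⁻¹) ε
          (n / Real.log n ^ D) (n / Real.log n ^ (D + 1)) hε hε1 hcc0 hcc1 (hc0 0) (Nat.cast_nonneg _)
          (by positivity) (by
            rw [pow_succ]
            have : (n : ℝ) / Real.log n ^ D = (Real.log n) * (n / (Real.log n ^ D * Real.log n)) := by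
              field_simp
            rw [this]
            apply mul_le_mul_of_nonneg_right _ (by positivity)
            linarith) hcon (by
            rw [← div_eq_mul_inv]
            exact hgood)
        exact absurd h3 (not_lt.2 hfin)
      exact_mod_cast card_le_card hsub)
    have hinj : (((Fintype.piFinset (fun i => Icc 1 (G i))).filter (fun g =>
        ε * ((copAll e f y a J).card * ∏ i, (Vz y * (e i * Real.log n))⁻¹) + n / Real.log n ^ D <
        |((priAll e f (fun i => a i + primorial y * (g0 i + g i)) J).card : ℝ) -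
        (copAll e f y a J).card * ∏ i, (Vz y * (e i * Real.log n))⁻¹|)).card : ℝ) ≤
        (((Icc 1 (G 0)) ×ˢ (Fintype.piFinset (fun i : Fin r => Icc 1 (G i.succ)))).filter
          (fun g => P g.1 g.2)).card := by
      have : ((Fintype.piFinset (fun i => Icc 1 (G i))).filter (fun g =>
        ε * ((copAll e f y a J).card * ∏ i, (Vz y * (e i * Real.log n))⁻¹) + n / Real.log n ^ D <
        |((priAll e f (fun i => a i + primorial y * (g0 i + g i)) J).card : ℝ) -
        (copAll e f y a J).card * ∏ i, (Vz y * (e i * Real.log n))⁻¹|)).card ≤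
        (((Icc 1 (G 0)) ×ˢ (Fintype.piFinset (fun i : Fin r => Icc 1 (G i.succ)))).filter
          (fun g => P g.1 g.2)).card := by
        refine card_le_card_of_injOn (fun g => (g 0, fun i => g i.succ)) ?_ ?_
        · intro g hg
          rw [mem_coe, mem_filter, Fintype.mem_piFinset] at hg
          rw [mem_coe, mem_filter, mem_product, Fintype.mem_piFinset]
          refine ⟨⟨hg.1 0, fun i => hg.1 i.succ⟩, ?_⟩
          rw [hP]
          have h1 : (Fin.cons (g 0) (fun i : Fin r => g i.succ) : Fin (r + 1) → ℕ) = g :=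
            Fin.cons_self_tail g
          simp only [h1]
          exact hg.2
        · intro g _ g' _ h
          rw [Prod.mk.injEq] at h
          funext i
          refine Fin.cases h.1 (fun i => ?_) i
          exact congrFun h.2 i
      exact_mod_cast this
    refine hinj.trans (hfub.trans ?_)
    rw [Fintype.card_piFinset, Fin.prod_univ_succ]
    simp only [Nat.card_Icc, Nat.add_sub_cancel]
    push_cast
    have h9 : (0 : ℝ) ≤ (G 0 : ℝ) * ∏ i : Fin r, (G i.succ : ℝ) :=
      mul_nonneg (Nat.cast_nonneg _) (prod_nonneg fun i _ => Nat.cast_nonneg _)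
    nlinarith

end Pool.Agent.U918.SM
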