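import Mathlib
import Pool.Agent.U918.IS.Iter
import Pool.Agent.U918.SM.Multi

/-! Bounds for primes with large index, and forms of `multi2` used in the applications. -/

set_option autoImplicit false

namespace Pool.Agent.U918.SM
open Finset Pool.Agent.H373R2.T7 Pool.Agent.Y877.SX Pool.Agent.U918.IS

/-- the primes with index at most `n` times a power of `log n` are not too large -/
theorem pr_le (A : ℕ) : ∃ B n0 : ℕ, ∀ n : ℕ, n0 ≤ n → ∀ k : ℕ, (k : ℝ) ≤ n * Real.log n ^ A →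
    (pr k : ℝ) ≤ n * Real.log n ^ B := by
  obtain ⟨n1, h1⟩ := nth_le_log
  obtain ⟨n2, h2⟩ := ev_L' 8
  obtain ⟨n3, h3⟩ := ev_log' A 2
  refine ⟨A + 3, max n1 (max n2 (max n3 1)), fun n hn k hk => ?_⟩
  have b1 : n1 ≤ n := le_trans (le_max_left _ _) hn
  have b2 : n2 ≤ n := le_trans (le_trans (le_max_left _ _) (le_max_right _ _)) hn
  have b3 : n3 ≤ n := le_trans (le_trans (le_trans (le_max_left _ _) (le_max_right _ _)) (le_max_right _ _)) hn
  have b4 : 1 ≤ n := le_trans (le_trans (le_trans (le_max_right _ _) (le_max_right _ _)) (le_max_right _ _)) hn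
  have hL := h2 n b2
  have hs := h3 n b3
  obtain ⟨L, hLd⟩ : ∃ L, L = Real.log n := ⟨_, rfl⟩
  rw [← hLd] at hL hs hk ⊢
  have hnr : (1 : ℝ) ≤ n := by exact_mod_cast b4
  have hn0 : (0 : ℝ) < n := by linarith
  have hLA : 1 ≤ L ^ A := one_le_pow₀ (by linarith)
  obtain ⟨N, hNd⟩ : ∃ N, N = ⌊(n : ℝ) * L ^ A⌋₊ := ⟨_, rfl⟩
  have hNu : (N : ℝ) ≤ n * L ^ A := by
    rw [hNd]
    exact Nat.floor_le (by positivity)
  have hnN : n ≤ N := by
    rw [hNd]
    apply Nat.le_floor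
    exact le_mul_of_one_le_right hn0.le hLA
  have hkN : k ≤ N := by
    rw [hNd]
    exact Nat.le_floor hk
  have k1 := h1 N (b1.trans hnN) (k - 1) (by omega)
  have hN0 : (0 : ℝ) < N := lt_of_lt_of_le hn0 (by exact_mod_cast hnN)
  have hLA2 : L ^ A ≤ n := by
    have hsn : √(n : ℝ) ≤ n := by
      have h := Real.sq_sqrt hn0.le
      have h1 : 1 ≤ √(n : ℝ) := by rw [← Real.sqrt_one]; exact Real.sqrt_le_sqrt hnr
      nlinarith
    linarith
  have hlN : Real.log N ≤ 2 * L := by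
    have h1 : (N : ℝ) ≤ n ^ 2 := by nlinarith
    have := Real.log_le_log hN0 h1
    rw [Real.log_pow, ← hLd] at this
    push_cast at this
    exact this
  have hlN0 : 0 ≤ Real.log N := Real.log_natCast_nonneg N
  have h5 : Real.log N ^ 2 ≤ (2 * L) ^ 2 := pow_le_pow_left₀ hlN0 hlN 2
  show (Nat.nth Nat.Prime (k - 1) : ℝ) ≤ _
  calc (Nat.nth Nat.Prime (k - 1) : ℝ) ≤ N * Real.log N ^ 2 := k1
    _ ≤ (n * L ^ A) * (2 * L) ^ 2 := mul_le_mul hNu h5 (by positivity) (by positivity)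
    _ = n * (L ^ A * (4 * L ^ 2)) := by ring
    _ ≤ n * (L ^ A * L ^ 3) := by
        apply mul_le_mul_of_nonneg_left _ hn0.le
        apply mul_le_mul_of_nonneg_left _ (by positivity)
        have : 0 ≤ L ^ 2 := by positivity
        nlinarith
    _ = n * L ^ (A + 3) := by rw [pow_add]

/-- coprimality to all primes up to `y` as coprimality to their product -/
theorem cop_iff (y m : ℕ) : (∀ p : ℕ, p.Prime → p ≤ y → ¬ p ∣ m) ↔ m.Coprime (primorial y) := by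
  constructor
  · intro h
    rw [Nat.coprime_iff_gcd_eq_one]
    by_contra hne
    obtain ⟨p, hp, hd⟩ := Nat.exists_prime_and_dvd hne
    have h1 : p ∣ m := hd.trans (Nat.gcd_dvd_left _ _)
    have h2 : p ∣ primorial y := hd.trans (Nat.gcd_dvd_right _ _)
    exact h p hp (hp.dvd_primorial_iff.1 h2) h1
  · intro h p hp hpy hd
    have h2 : p ∣ primorial y := hp.dvd_primorial_iff.2 hpy
    have := Nat.dvd_gcd hd h2
    rw [Nat.coprime_iff_gcd_eq_one.1 h, Nat.dvd_one] at this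
    exact hp.ne_one this

/-- The form of `multi2` used below: `Prime` shifted values against values prime to the primorial. -/
theorem main (r : ℕ) (B C D : ℕ) (ε : ℝ) (hε : 0 < ε) (hε1 : ε ≤ 1) : ∃ K0 : ℕ, ∀ K1 : ℕ, ∃ n0 : ℕ,
    ∀ n : ℕ, n0 ≤ n →
    ∀ y : ℕ, K0 * Real.log (Real.log n) ≤ y → y ≤ K1 * Real.log (Real.log n) →
    ∀ e : Fin r → ℕ, (∀ i, e i = 1 ∨ e i = 2) →
    ∀ J : Finset ℕ, ∀ f : Fin r → ℕ → ℕ, (∀ i, Set.InjOn (f i) J) →
    (∀ i, ∀ j ∈ J, 1 ≤ f i j ∧ (f i j : ℝ) ≤ n * Real.log n ^ B) →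
    ∀ a g0 G : Fin r → ℕ, (∀ i, a i + primorial y * (g0 i + G i) ≤ n ^ e i) →
    (∀ i, (n : ℝ) ^ e i ≤ primorial y * G i * Real.log n ^ C) →
    ∀ (P Q : (Fin r → ℕ) → Finset ℕ), (∀ g, P g ⊆ J) → (∀ g, Q g ⊆ J) →
    (∀ g, ∀ j ∈ J, j ∈ P g ↔ ∀ i, (f i j ^ e i + (a i + primorial y * (g0 i + g i))).Prime) →
    (∀ g, ∀ j ∈ J, j ∈ Q g ↔ ∀ i, (f i j ^ e i + a i).Coprime (primorial y)) →
    (((Fintype.piFinset (fun i => Icc 1 (G i))).filter (fun g =>
      ε * ((Q g).card / ∏ i, (e i * (Vz y * Real.log n))) + n / Real.log n ^ D <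
      |((P g).card : ℝ) - (Q g).card / ∏ i, (e i * (Vz y * Real.log n))|)).card : ℝ) ≤
      ε * ∏ i, (G i : ℝ) := by
  obtain ⟨K0, h0⟩ := multi2 r B C D ε hε hε1
  refine ⟨K0, fun K1 => ?_⟩
  obtain ⟨n0, h1⟩ := h0 K1
  refine ⟨n0, fun n hn y hy1 hy2 e he J f hi hf a g0 G a1 a2 P Q hPJ hQJ hP hQ => ?_⟩
  refine le_trans (le_of_eq ?_) (h1 n hn y hy1 hy2 e he J f hi hf a g0 G a1 a2)
  congr 2
  apply filter_congr
  intro g _
  have e1 : P g = priAll e f (fun i => a i + primorial y * (g0 i + g i)) J := by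
    ext j
    simp only [priAll, mem_filter]
    exact ⟨fun h => ⟨hPJ g h, (hP g j (hPJ g h)).1 h⟩, fun h => (hP g j h.1).2 h.2⟩
  have e2 : Q g = copAll e f y a J := by
    ext j
    simp only [copAll, mem_filter]
    constructor
    · intro h
      exact ⟨hQJ g h, fun i => (cop_iff y _).2 ((hQ g j (hQJ g h)).1 h i)⟩
    · intro h
      exact (hQ g j h.1).2 (fun i => (cop_iff y _).1 (h.2 i))
  have e3 : (∏ i, (Vz y * (e i * Real.log n))⁻¹) = (∏ i, ((e i : ℝ) * (Vz y * Real.log n)))⁻¹ := by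
    rw [← prod_inv_distrib]
    apply prod_congr rfl
    intro i _
    congr 1
    ring
  rw [e1, e2, e3, ← div_eq_mul_inv]

end Pool.Agent.U918.SM
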